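import Pool.Agent.Lib_helper70.PS.Conn

set_option autoImplicit false

/-!
The cut darts based in a component form a block.
-/

namespace PS

/-- a cyclic enumeration of the cut darts of `P` -/
structure Enum (P : Set (ℤ × ℤ)) (m : ℕ) (δ : ℕ → Dart) : Prop where
  pos : 0 < m
  cut : ∀ i, IsCut P (δ i)
  step : ∀ i, δ (i + 1) = nxt P (δ i)
  per : δ m = δ 0
  inj : ∀ i j, i < m → j < m → δ i = δ j → i = j
  all : ∀ d, IsCut P d → ∃ i < m, δ i = d

lemma Enum.exists {P : Set (ℤ × ℤ)} (hfin : P.Finite) (h1 : (Lat.induce P).Preconnected)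
    (h2 : (Lat.induce Pᶜ).Preconnected) (x : Dart) (hx : IsCut P x) :
    ∃ (m : ℕ) (δ : ℕ → Dart), Enum P m δ ∧ δ 0 = x := by
  obtain ⟨m, δ, hm, h0, hcut, hstep, hper, hinj, hall⟩ := exists_enum hfin h1 h2 x hx
  exact ⟨m, δ, ⟨hm, hcut, hstep, by rw [hper, h0], hinj, hall⟩, h0⟩

lemma Enum.add_period {P : Set (ℤ × ℤ)} {m : ℕ} {δ : ℕ → Dart} (h : Enum P m δ) (i : ℕ) :
    δ (i + m) = δ i := by
  induction i with
  | zero => rw [Nat.zero_add]; exact h.per
  | succ i ih => rw [show i + 1 + m = (i + m) + 1 by ring, h.step, h.step, ih]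

lemma Enum.mod {P : Set (ℤ × ℤ)} {m : ℕ} {δ : ℕ → Dart} (h : Enum P m δ) (i : ℕ) :
    δ (i % m) = δ i := by
  have key : ∀ q r, δ (r + m * q) = δ r := by
    intro q
    induction q with
    | zero => intro r; simp
    | succ q ih => intro r; rw [Nat.mul_succ, ← add_assoc, h.add_period, ih]
  conv_rhs => rw [← Nat.mod_add_div i m]
  rw [key]

lemma Enum.eq_iff {P : Set (ℤ × ℤ)} {m : ℕ} {δ : ℕ → Dart} (h : Enum P m δ) (i j : ℕ) :
    δ i = δ j ↔ i % m = j % m := by
  constructor
  · intro hij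
    rw [← h.mod i, ← h.mod j] at hij
    exact h.inj _ _ (Nat.mod_lt _ h.pos) (Nat.mod_lt _ h.pos) hij
  · intro hij
    rw [← h.mod i, ← h.mod j, hij]

/-- shifting an enumeration -/
lemma Enum.shift {P : Set (ℤ × ℤ)} {m : ℕ} {δ : ℕ → Dart} (h : Enum P m δ) (p : ℕ) :
    Enum P m (fun i => δ (p + i)) where
  pos := h.pos
  cut i := h.cut _
  step i := h.step (p + i)
  per := by
    show δ (p + m) = δ (p + 0)
    rw [h.add_period]; rfl
  inj i j hi hj hij := by
    have h1 : (p + i) ≡ (p + j) [MOD m] := (h.eq_iff _ _).1 hij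
    have h2 : i ≡ j [MOD m] := Nat.ModEq.add_left_cancel' p h1
    exact Nat.ModEq.eq_of_lt_of_lt h2 hi hj
  all d hd := by
    obtain ⟨k, hk, rfl⟩ := h.all d hd
    refine ⟨(k + (m - p % m)) % m, Nat.mod_lt _ h.pos, ?_⟩
    show δ (p + (k + (m - p % m)) % m) = δ k
    rw [h.eq_iff, Nat.add_mod_mod]
    have h1 : p % m < m := Nat.mod_lt _ h.pos
    have h2 : p + (k + (m - p % m)) = k + m * (p / m + 1) := by
      have := Nat.mod_add_div p m
      have h3 : m * (p / m + 1) = m * (p / m) + m := by ring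
      omega
    rw [h2, Nat.add_mul_mod_self_left]

lemma rf_step {P : Set (ℤ × ℤ)} {m : ℕ} {δ : ℕ → Dart} (h : Enum P m δ) (i : ℕ) :
    rf (δ (i + 1)) = lf (δ i) := by
  rw [h.step, rf_nxt]

/-- **Block lemma** -/
theorem block {P P' : Set (ℤ × ℤ)} {m : ℕ} {δ : ℕ → Dart} (h : Enum P m δ)
    (hP' : P' ⊆ P) (hc' : (Lat.induce P').Preconnected) (hc : (Lat.induce Pᶜ).Preconnected)
    (hY : Conn Lat (P \ P')) (h0 : (δ 0).1 ∉ P') {i j l : ℕ} (hi : i < m) (hj : j < m)
    (hil : i ≤ l) (hlj : l ≤ j) (hiP : (δ i).1 ∈ P') (hjP : (δ j).1 ∈ P') : (δ l).1 ∈ P' := by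
  by_contra hl
  have hil' : i < l := lt_of_le_of_ne hil (by rintro rfl; exact hl hiP)
  have hlj' : l < j := lt_of_le_of_ne hlj (by rintro rfl; exact hl hjP)
  have hi0 : 0 < i := Nat.pos_of_ne_zero (by rintro rfl; exact h0 hiP)
  obtain ⟨s, hs⟩ := exists_side P' Pᶜ (δ i) (δ j) hiP hjP (h.cut i).2 (h.cut j).2 hc' hc
  -- the side function along the cut darts
  have hcut : ∀ n, n < m → s (lf (δ n)) + s (rf (δ n)) = ind (n = i) + ind (n = j) := by
    intro n hn
    rw [hs (δ n) (fun hh => (h.cut n).2 (hP' hh.2)) (fun hh => hh.1 (h.cut n).1),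
      ee_cut (h.cut i) (h.cut n), ee_cut (h.cut j) (h.cut n)]
    congr 1
    · by_cases e : n = i
      · rw [ind_true e, ind_true (by rw [e])]
      · rw [ind_false e, ind_false (fun h' => e (h.inj _ _ hn hi h'))]
    · by_cases e : n = j
      · rw [ind_true e, ind_true (by rw [e])]
      · rw [ind_false e, ind_false (fun h' => e (h.inj _ _ hn hj h'))]
  have hu : ∀ n, n < m → s (lf (δ n)) = s (lf (δ 0)) + ind (i ≤ n) + ind (j ≤ n) := by
    intro n
    induction n with
    | zero =>
      intro _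
      rw [ind_false (by omega), ind_false (by omega), add_zero, add_zero]
    | succ n ih =>
      intro hn
      have e1 := hcut (n + 1) hn
      rw [rf_step h] at e1
      have e2 := ih (by omega)
      have e3 : ind (i ≤ n + 1) = ind (i ≤ n) + ind (n + 1 = i) := by
        by_cases a : i ≤ n
        · rw [ind_true a, ind_true (by omega), ind_false (by omega), add_zero]
        · by_cases b : n + 1 = i
          · rw [ind_false a, ind_true b, ind_true (by omega), zero_add]
          · rw [ind_false a, ind_false b, ind_false (by omega), zero_add]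
      have e4 : ind (j ≤ n + 1) = ind (j ≤ n) + ind (n + 1 = j) := by
        by_cases a : j ≤ n
        · rw [ind_true a, ind_true (by omega), ind_false (by omega), add_zero]
        · by_cases b : n + 1 = j
          · rw [ind_false a, ind_true b, ind_true (by omega), zero_add]
          · rw [ind_false a, ind_false b, ind_false (by omega), zero_add]
      have e5 := add_self2 (s (lf (δ n)))
      rw [e3, e4]
      linear_combination e1 + e2 - e5
  -- faces around a vertex outside the walk
  have hstar : ∀ b, b ∉ P' → b ∈ P → ∀ k : Fin 6, s (lf (b, k)) = s (lf (b, 0)) := by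
    intro b hb hbP
    have h1 : ∀ k : Fin 6, s (lf (b, k)) = s (lf (b, k - 1)) := by
      intro k
      have e := hs (b, k) (fun hh => hb hh.1) (fun hh => hh.1 hbP)
      have z1 : ee (δ i) (b, k) = 0 := by
        refine ind_false ?_
        rintro (e | e)
        · exact hb (by have := congrArg Prod.fst e; simp only at this; rw [this]; exact hiP)
        · have := congrArg Prod.fst e
          exact (h.cut i).2 (by rw [← rev_fst, ← e]; exact hbP)
      have z2 : ee (δ j) (b, k) = 0 := by
        refine ind_false ?_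
        rintro (e | e)
        · exact hb (by have := congrArg Prod.fst e; simp only at this; rw [this]; exact hjP)
        · exact (h.cut j).2 (by rw [← rev_fst, ← e]; exact hbP)
      rw [z1, z2, add_zero] at e
      have e5 := add_self2 (s (rf (b, k)))
      have e6 : s (lf (b, k)) = s (rf (b, k)) := by linear_combination e - e5
      exact e6
    have a1 := h1 1
    have a2 := h1 2
    have a3 := h1 3
    have a4 := h1 4
    have a5 := h1 5
    have r1 : (1 : Fin 6) - 1 = 0 := by decide
    have r2 : (2 : Fin 6) - 1 = 1 := by decide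
    have r3 : (3 : Fin 6) - 1 = 2 := by decide
    have r4 : (4 : Fin 6) - 1 = 3 := by decide
    have r5 : (5 : Fin 6) - 1 = 4 := by decide
    rw [r1] at a1; rw [r2] at a2; rw [r3] at a3; rw [r4] at a4; rw [r5] at a5
    intro k
    fin_cases k
    · rfl
    · exact a1
    · exact a2.trans a1
    · exact a3.trans (a2.trans a1)
    · exact a4.trans (a3.trans (a2.trans a1))
    · exact a5.trans (a4.trans (a3.trans (a2.trans a1)))
  have hYc : P \ P' ⊆ {b | s (lf (b, 0)) = s (lf ((δ 0).1, 0))} := by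
    refine hY.2 _ ⟨(δ 0).1, ⟨(h.cut 0).1, h0⟩, rfl⟩ ?_
    rintro b ⟨hbP, hb⟩ hbT c ⟨hcP, hcn⟩ ⟨k, rfl⟩
    have e1 := hstar b hb hbP k
    have e2 := hstar _ hcn hcP (k + 2)
    have e3 : lf (b + dir k, k + 2) = lf (b, k) := lf_rot (b, k)
    rw [e3] at e2
    show s (lf (b + dir k, 0)) = _
    rw [← e2, e1]; exact hbT
  have k1 : s (lf (δ l)) = s (lf (δ 0)) := by
    have a1 := hstar (δ l).1 hl (h.cut l).1 (δ l).2
    have a2 := hstar (δ 0).1 h0 (h.cut 0).1 (δ 0).2
    have a3 : s (lf ((δ l).1, 0)) = s (lf ((δ 0).1, 0)) := hYc ⟨(h.cut l).1, hl⟩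
    calc s (lf (δ l)) = s (lf ((δ l).1, 0)) := a1
      _ = s (lf ((δ 0).1, 0)) := a3
      _ = s (lf (δ 0)) := a2.symm
  have k2 := hu l (by omega)
  rw [ind_true (by omega : i ≤ l), ind_false (by omega : ¬ j ≤ l), k1, add_zero] at k2
  have : (1 : ZMod 2) = 0 := by linear_combination -k2
  exact absurd this (by decide)

end PS
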