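import Pool.Agent.Lib_helper70.PS.Orbit

set_option autoImplicit false

/-!
Connectivity of vertex sets, by closure under adjacency.
-/

namespace PS

/-- `S` is nonempty and connected in `G` -/
def Conn {α : Type} (G : SimpleGraph α) (S : Set α) : Prop :=
  S.Nonempty ∧ ∀ T : Set α, (∃ a ∈ S, a ∈ T) →
    (∀ x ∈ S, x ∈ T → ∀ y ∈ S, G.Adj x y → y ∈ T) → S ⊆ T

theorem conn_iff {α : Type} {G : SimpleGraph α} {S : Set α} :
    (G.induce S).Connected ↔ Conn G S := by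
  constructor
  · intro h
    refine ⟨?_, ?_⟩
    · obtain ⟨⟨a, ha⟩⟩ := h.nonempty
      exact ⟨a, ha⟩
    · rintro T ⟨a, haS, haT⟩ hT y hy
      obtain ⟨w⟩ := h.preconnected ⟨a, haS⟩ ⟨y, hy⟩
      have key : ∀ (u v : S) (w : (G.induce S).Walk u v), (u : α) ∈ T → (v : α) ∈ T := by
        intro u v w
        induction w with
        | nil => exact id
        | @cons u v' v h p ih => exact fun hu => ih (hT _ u.2 hu _ v'.2 h)
      exact key _ _ w haT
  · rintro ⟨⟨a, ha⟩, h⟩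
    have key : ∀ x (hx : x ∈ S), ∀ y (hy : y ∈ S), (G.induce S).Reachable ⟨x, hx⟩ ⟨y, hy⟩ := by
      intro x hx
      have := h {y | ∃ hy : y ∈ S, (G.induce S).Reachable ⟨x, hx⟩ ⟨y, hy⟩} ⟨x, hx, hx, SimpleGraph.Reachable.refl _⟩
        (by
          rintro u _ ⟨hu, hur⟩ v hv huv
          exact ⟨hv, hur.trans (SimpleGraph.Adj.reachable huv)⟩)
      intro y hy
      exact (this hy).2
    exact { preconnected := fun x y => key _ _ _ _, nonempty := ⟨⟨a, ha⟩⟩ }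

lemma Conn.nonempty {α : Type} {G : SimpleGraph α} {S : Set α} (h : Conn G S) : S.Nonempty := h.1

/-- the union of two touching (or intersecting) connected sets is connected -/
lemma Conn.union {α : Type} {G : SimpleGraph α} {S T : Set α} (hS : Conn G S) (hT : Conn G T)
    (h : ∃ a ∈ S, ∃ b ∈ T, a = b ∨ G.Adj a b) : Conn G (S ∪ T) := by
  obtain ⟨a, haS, b, hbT, hab⟩ := h
  refine ⟨hS.1.mono Set.subset_union_left, ?_⟩
  rintro R ⟨c, hc, hcR⟩ hR
  have hRS : (∃ a ∈ S, a ∈ R) → S ⊆ R := fun h' =>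
    hS.2 R h' fun x hx hxR y hy hxy => hR x (Or.inl hx) hxR y (Or.inl hy) hxy
  have hRT : (∃ a ∈ T, a ∈ R) → T ⊆ R := fun h' =>
    hT.2 R h' fun x hx hxR y hy hxy => hR x (Or.inr hx) hxR y (Or.inr hy) hxy
  have hSR : S ⊆ R → T ⊆ R := by
    intro h'
    refine hRT ⟨b, hbT, ?_⟩
    rcases hab with rfl | hab
    · exact h' haS
    · exact hR a (Or.inl haS) (h' haS) b (Or.inr hbT) hab
  have hTR : T ⊆ R → S ⊆ R := by
    intro h'
    refine hRS ⟨a, haS, ?_⟩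
    rcases hab with rfl | hab
    · exact h' hbT
    · exact hR b (Or.inr hbT) (h' hbT) a (Or.inl haS) hab.symm
  rcases hc with hc | hc
  · have := hRS ⟨c, hc, hcR⟩
    exact Set.union_subset this (hSR this)
  · have := hRT ⟨c, hc, hcR⟩
    exact Set.union_subset (hTR this) this

lemma conn_singleton {α : Type} (G : SimpleGraph α) (a : α) : Conn G {a} := by
  refine ⟨⟨a, rfl⟩, ?_⟩
  rintro T ⟨b, rfl, hb⟩ _ c rfl
  exact hb

/-- a union of connected sets all containing/touching a common connected set -/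
lemma conn_of_star {α : Type} {G : SimpleGraph α} {S R : Set α} (hR : Conn G R) (hRS : R ⊆ S)
    (h : ∀ x ∈ S, ∃ T : Set α, x ∈ T ∧ T ⊆ S ∧ Conn G T ∧ (T ∩ R).Nonempty) : Conn G S := by
  refine ⟨hR.1.mono hRS, ?_⟩
  rintro Q ⟨c, hc, hcQ⟩ hQ
  have hQR : R ⊆ Q := by
    obtain ⟨T, hcT, hTS, hT, ⟨r, hrT, hrR⟩⟩ := h c hc
    have h1 : T ⊆ Q := hT.2 Q ⟨c, hcT, hcQ⟩ fun x hx hxQ y hy hxy =>
      hQ x (hTS hx) hxQ y (hTS hy) hxy
    exact hR.2 Q ⟨r, hrR, h1 hrT⟩ fun x hx hxQ y hy hxy => hQ x (hRS hx) hxQ y (hRS hy) hxy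
  intro x hx
  obtain ⟨T, hxT, hTS, hT, ⟨r, hrT, hrR⟩⟩ := h x hx
  exact hT.2 Q ⟨r, hrT, hQR hrR⟩ (fun x hx hxQ y hy hxy => hQ x (hTS hx) hxQ y (hTS hy) hxy) hxT

/-- preimages of connected sets are connected -/
lemma lift_conn {W : Type} {π : ℤ × ℤ → W} {o : W} (hM : Model π o) {C : Set W}
    (h : Conn (Quo π) C) : Conn Lat (π ⁻¹' C) := by
  have hf : ∀ p, Conn Lat (π ⁻¹' {p}) := fun p => conn_iff.1 (hM.conn p)
  refine ⟨?_, ?_⟩
  · obtain ⟨p, hp⟩ := h.1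
    obtain ⟨a, ha⟩ := (hf p).1
    exact ⟨a, by rw [Set.mem_preimage]; rw [Set.mem_preimage, Set.mem_singleton_iff] at ha; rwa [ha]⟩
  · rintro T ⟨a, haC, haT⟩ hT
    have h1 : ∀ p ∈ C, (∃ x, π x = p ∧ x ∈ T) → π ⁻¹' {p} ⊆ T := by
      rintro p hp ⟨x, hx, hxT⟩
      refine (hf p).2 T ⟨x, hx, hxT⟩ fun y hy hyT z hz hyz => hT y ?_ hyT z ?_ hyz
      · rw [Set.mem_preimage]; rw [Set.mem_preimage, Set.mem_singleton_iff] at hy; rwa [hy]
      · rw [Set.mem_preimage]; rw [Set.mem_preimage, Set.mem_singleton_iff] at hz; rwa [hz]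
    have h2 : C ⊆ {p | ∃ x, π x = p ∧ x ∈ T} := by
      refine h.2 _ ⟨π a, haC, a, rfl, haT⟩ ?_
      rintro p hp hpT q hq ⟨hpq, x, y, hxy, hx, hy⟩
      have hxT : x ∈ T := h1 p hp hpT hx
      refine ⟨y, hy, hT x ?_ hxT y ?_ hxy⟩
      · rw [Set.mem_preimage, hx]; exact hp
      · rw [Set.mem_preimage, hy]; exact hq
    intro b hb
    exact h1 (π b) hb (h2 hb) rfl

lemma lift_finite {W : Type} [Finite W] {π : ℤ × ℤ → W} {o : W} (hM : Model π o) {C : Set W}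
    (ho : o ∉ C) : (π ⁻¹' C).Finite := by
  have : π ⁻¹' C = ⋃ p ∈ C, π ⁻¹' {p} := by
    ext x; simp
  rw [this]
  refine Set.Finite.biUnion (Set.toFinite C) fun p hp => hM.fin p ?_
  rintro rfl
  exact ho hp

lemma Conn.precon {α : Type} {G : SimpleGraph α} {S : Set α} (h : Conn G S) :
    (G.induce S).Preconnected := (conn_iff.2 h).preconnected

/-- adjacent lattice points have equal or adjacent images -/
lemma quo_of_lat {W : Type} {π : ℤ × ℤ → W} {a b : ℤ × ℤ} (h : Lat.Adj a b) :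
    π a = π b ∨ (Quo π).Adj (π a) (π b) := by
  by_cases hab : π a = π b
  · exact Or.inl hab
  · exact Or.inr ⟨hab, a, b, h, rfl, rfl⟩

lemma lat_adj_dir (a : ℤ × ℤ) (j : Fin 6) : Lat.Adj a (a + dir j) := ⟨j, rfl⟩

lemma lat_adj_tip (d : Dart) : Lat.Adj d.1 (tip d) := ⟨d.2, rfl⟩

/-- bases of consecutive cut darts are equal or adjacent -/
lemma base_nxt (P : Set (ℤ × ℤ)) (d : Dart) : (nxt P d).1 = d.1 ∨ Lat.Adj d.1 (nxt P d).1 := by
  by_cases h1 : d.1 + dir (d.2 + 1) ∈ P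
  · rw [nxt_of_mem h1]; exact Or.inr (lat_adj_dir _ _)
  · rw [nxt_of_not_mem h1]; exact Or.inl rfl

/-- tips of consecutive cut darts are equal or adjacent -/
lemma tip_nxt (P : Set (ℤ × ℤ)) (d : Dart) : tip (nxt P d) = tip d ∨ Lat.Adj (tip d) (tip (nxt P d)) := by
  by_cases h1 : d.1 + dir (d.2 + 1) ∈ P
  · exact Or.inl (tip_nxt_of_mem h1)
  · right
    rw [tip_nxt_of_not_mem h1]
    refine ⟨d.2 + 2, ?_⟩
    rw [tip, add_assoc, dir_add_two]

/-- if `p ∈ A` and `q ∉ A` are adjacent there is a cut dart between their fibres -/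
lemma exists_cut {W : Type} {π : ℤ × ℤ → W} {A : Set W} {p q : W} (hp : p ∈ A) (hq : q ∉ A)
    (h : (Quo π).Adj p q) : ∃ d, IsCut (π ⁻¹' A) d ∧ π d.1 = p ∧ π (tip d) = q := by
  obtain ⟨_, a, b, ⟨j, rfl⟩, rfl, rfl⟩ := h
  exact ⟨(a, j), ⟨hp, hq⟩, rfl, rfl⟩

lemma cut_adj {W : Type} {π : ℤ × ℤ → W} {A : Set W} {d : Dart} (h : IsCut (π ⁻¹' A) d) :
    (Quo π).Adj (π d.1) (π (tip d)) :=
  ⟨fun e => h.2 (by show π (tip d) ∈ A; rw [← e]; exact h.1), d.1, tip d, lat_adj_tip d, rfl, rfl⟩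

/-- **Boundary connectivity** -/
theorem boundary_conn {W : Type} [Finite W] {π : ℤ × ℤ → W} {o : W} (hM : Model π o)
    {A : Set W} (hA : Conn (Quo π) A) (hA' : Conn (Quo π) Aᶜ) (hne : ∃ p ∈ A, ∃ q ∈ Aᶜ, (Quo π).Adj p q) :
    Conn (Quo π) {y | y ∉ A ∧ ∃ x ∈ A, (Quo π).Adj x y} := by
  obtain ⟨p0, hp0, q0, hq0, hpq0⟩ := hne
  refine ⟨⟨q0, hq0, p0, hp0, hpq0⟩, ?_⟩
  rintro T ⟨z, ⟨hzA, x, hxA, hxz⟩, hzT⟩ hT
  by_cases ho : o ∈ A
  · -- the finite side is the complement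
    have ho' : o ∉ Aᶜ := fun h => h ho
    have hfin := lift_finite hM ho'
    have hc1 := (lift_conn hM hA').precon
    have hc2 := (lift_conn hM hA).precon
    have hcompl : (π ⁻¹' Aᶜ)ᶜ = π ⁻¹' A := by rw [Set.preimage_compl, compl_compl]
    obtain ⟨d0, hd0, hd0b, hd0t⟩ := exists_cut (A := Aᶜ) hzA (by simpa using hxA) hxz.symm
    obtain ⟨m, δ, -, h0, hcut, hstep, -, -, hall⟩ :=
      exists_enum hfin hc1 (by rw [hcompl]; exact hc2) d0 hd0
    have hmem : ∀ i, π (δ i).1 ∈ {y | y ∉ A ∧ ∃ x ∈ A, (Quo π).Adj x y} := fun i =>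
      ⟨(hcut i).1, π (tip (δ i)), by have := (hcut i).2; simpa using this, (cut_adj (hcut i)).symm⟩
    have hind : ∀ i, π (δ i).1 ∈ T := by
      intro i
      induction i with
      | zero => rw [h0, hd0b]; exact hzT
      | succ i ih =>
        rcases base_nxt (π ⁻¹' Aᶜ) (δ i) with h | h
        · rw [hstep, h]; exact ih
        · rcases quo_of_lat (π := π) h with h' | h'
          · rw [hstep, ← h']; exact ih
          · have := hT _ (hmem i) ih _ (hmem (i + 1)) (by rw [hstep]; exact h')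
            exact this
    rintro y ⟨hyA, x', hx'A, hx'y⟩
    obtain ⟨d, hd, hdb, hdt⟩ := exists_cut (A := Aᶜ) hyA (by simpa using hx'A) hx'y.symm
    obtain ⟨i, -, hi⟩ := hall d hd
    have := hind i
    rw [hi, hdb] at this
    exact this
  · have hfin := lift_finite hM ho
    have hc1 := (lift_conn hM hA).precon
    have hc2 := (lift_conn hM hA').precon
    obtain ⟨d0, hd0, hd0b, hd0t⟩ := exists_cut (A := A) hxA hzA hxz
    obtain ⟨m, δ, -, h0, hcut, hstep, -, -, hall⟩ :=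
      exists_enum hfin hc1 (by rw [← Set.preimage_compl]; exact hc2) d0 hd0
    have hmem : ∀ i, π (tip (δ i)) ∈ {y | y ∉ A ∧ ∃ x ∈ A, (Quo π).Adj x y} := fun i =>
      ⟨(hcut i).2, π (δ i).1, (hcut i).1, cut_adj (hcut i)⟩
    have hind : ∀ i, π (tip (δ i)) ∈ T := by
      intro i
      induction i with
      | zero => rw [h0, hd0t]; exact hzT
      | succ i ih =>
        rcases tip_nxt (π ⁻¹' A) (δ i) with h | h
        · rw [hstep, h]; exact ih
        · rcases quo_of_lat (π := π) h with h' | h'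
          · rw [hstep, ← h']; exact ih
          · have := hT _ (hmem i) ih _ (hmem (i + 1)) (by rw [hstep]; exact h')
            exact this
    rintro y ⟨hyA, x', hx'A, hx'y⟩
    obtain ⟨d, hd, hdb, hdt⟩ := exists_cut (A := A) hx'A hyA hx'y
    obtain ⟨i, -, hi⟩ := hall d hd
    have := hind i
    rw [hi, hdt] at this
    exact this

end PS
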