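import Pool.Agent.Lib_helper70.PS.Metric

set_option autoImplicit false

/-!
Nested separators: two deep adjacent vertices have vertical paths that come close to each other.
-/

namespace PS

section conn
variable {α : Type} {G : SimpleGraph α}

lemma conn_of_hits {S R : Set α} (hR : Conn G R) (hRS : R ⊆ S)
    (h : ∀ T ⊆ S, T.Nonempty → (∀ x ∈ T, ∀ y ∈ S, G.Adj x y → y ∈ T) → (T ∩ R).Nonempty) :
    Conn G S := by
  refine ⟨hR.1.mono hRS, ?_⟩
  rintro Q ⟨c, hc, hcQ⟩ hQ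
  have h1 : (Q ∩ S ∩ R).Nonempty := by
    refine h (Q ∩ S) Set.inter_subset_right ⟨c, hcQ, hc⟩ ?_
    rintro x ⟨hxQ, hxS⟩ y hy hxy
    exact ⟨hQ x hxS hxQ y hy hxy, hy⟩
  obtain ⟨r, ⟨hrQ, -⟩, hrR⟩ := h1
  have hRQ : R ⊆ Q := hR.2 Q ⟨r, hrR, hrQ⟩ fun x hx hxQ y hy hxy =>
    hQ x (hRS hx) hxQ y (hRS hy) hxy
  intro y hy
  by_contra hyQ
  have h2 : ((S \ Q) ∩ R).Nonempty := by
    refine h (S \ Q) Set.sdiff_subset ⟨y, hy, hyQ⟩ ?_
    rintro x ⟨hxS, hxQ⟩ z hz hxz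
    exact ⟨hz, fun hzQ => hxQ (hQ z hz hzQ x hxS hxz.symm)⟩
  obtain ⟨s, ⟨-, hsQ⟩, hsR⟩ := h2
  exact hsQ (hRQ hsR)

/-- the component of `U` containing a connected set -/
lemma exists_compo {S U : Set α} (hS : Conn G S) (hSU : S ⊆ U) :
    ∃ D, S ⊆ D ∧ D ⊆ U ∧ Conn G D ∧ ∀ x ∈ D, ∀ y ∈ U, G.Adj x y → y ∈ D := by
  refine ⟨{x | ∃ T, T ⊆ U ∧ Conn G T ∧ S ⊆ T ∧ x ∈ T}, ?_, ?_, ?_, ?_⟩
  · exact fun x hx => ⟨S, hSU, hS, subset_rfl, hx⟩
  · rintro x ⟨T, hTU, -, -, hxT⟩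
    exact hTU hxT
  · refine conn_of_star hS (fun x hx => ⟨S, hSU, hS, subset_rfl, hx⟩) ?_
    rintro x ⟨T, hTU, hT, hST, hxT⟩
    refine ⟨T, hxT, fun y hy => ⟨T, hTU, hT, hST, hy⟩, hT, ?_⟩
    obtain ⟨s, hs⟩ := hS.1
    exact ⟨s, hST hs, hs⟩
  · rintro x ⟨T, hTU, hT, hST, hxT⟩ y hy hxy
    refine ⟨T ∪ {y}, ?_, ?_, hST.trans Set.subset_union_left, Or.inr rfl⟩
    · rintro z (hz | rfl)
      · exact hTU hz
      · exact hy
    · exact hT.union (conn_singleton G y) ⟨x, hxT, y, rfl, Or.inr hxy⟩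

lemma conn_univ_iff : Conn G Set.univ ↔ G.Connected := by
  constructor
  · intro h
    obtain ⟨a, -⟩ := h.1
    have key : ∀ x y, G.Reachable x y := by
      intro x y
      have := h.2 {y | G.Reachable x y} ⟨x, trivial, SimpleGraph.Reachable.refl _⟩ (by
        rintro u - hu v - huv
        exact SimpleGraph.Reachable.trans hu huv.reachable)
      exact this (Set.mem_univ y)
    exact { preconnected := key, nonempty := ⟨a⟩ }
  · intro h
    obtain ⟨a⟩ := h.nonempty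
    refine ⟨⟨a, trivial⟩, ?_⟩
    rintro T ⟨b, -, hb⟩ hT y -
    obtain ⟨w⟩ := h.preconnected b y
    induction w with
    | nil => exact hb
    | cons hadj w ih => exact ih (hT _ trivial hb _ trivial hadj)

/-- transfer to an induced subgraph -/
lemma conn_induce {S A : Set α} (hS : Conn G S) (hSA : S ⊆ A) :
    Conn (G.induce A) {x : A | (x : α) ∈ S} := by
  refine ⟨?_, ?_⟩
  · obtain ⟨s, hs⟩ := hS.1
    exact ⟨⟨s, hSA hs⟩, hs⟩
  · rintro T ⟨a, ha, haT⟩ hT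
    have := hS.2 {x | ∃ h : x ∈ A, (⟨x, h⟩ : A) ∈ T} ⟨a, ha, a.2, haT⟩ (by
      rintro x hx ⟨hxA, hxT⟩ y hy hxy
      exact ⟨hSA hy, hT ⟨x, hxA⟩ hx hxT ⟨y, hSA hy⟩ hy hxy⟩)
    rintro ⟨x, hxA⟩ hx
    obtain ⟨_, h⟩ := this hx
    exact h

/-- the length of a walk in a graph where consecutive vertices are not both in `F` -/
lemma walk_length_le [DecidableEq α] {F : Set α} [DecidablePred (· ∈ F)]
    (hF : ∀ p ∈ F, ∀ q ∈ F, ¬ G.Adj p q) {u v : α} (w : G.Walk u v) :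
    w.length + (if u ∈ F then 0 else 1) ≤ 2 * (w.support.filter (fun x => decide (x ∉ F))).length := by
  induction w with
  | @nil u =>
    by_cases hu : u ∈ F
    · simp [hu]
    · simp [hu]
  | @cons u v _ h w ih =>
    rw [SimpleGraph.Walk.support_cons, SimpleGraph.Walk.length_cons]
    by_cases hu : u ∈ F
    · have hv : v ∉ F := fun hv => hF u hu v hv h
      rw [List.filter_cons_of_neg (by simpa using hu)]
      simp only [hu, hv, if_true, if_false] at ih ⊢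
      omega
    · rw [List.filter_cons_of_pos (by simpa using hu), List.length_cons]
      simp only [hu, if_false]
      split_ifs at ih <;> omega

/-- short paths in a connected set with few vertices outside an independent set -/
lemma dist_le_of_conn {Z F : Set α} {X : Finset α} {k : ℕ} (hZ : Conn G Z)
    (hF : ∀ p ∈ F, ∀ q ∈ F, ¬ G.Adj p q) (hZX : ∀ z ∈ Z, z ∈ X ∨ z ∈ F) (hX : X.card ≤ k + 1)
    {z z' : α} (hz : z ∈ Z) (hz' : z' ∈ Z) : G.dist z z' ≤ 2 * k + 2 := by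
  classical
  obtain ⟨w, hw⟩ := (hZ.precon ⟨z, hz⟩ ⟨z', hz'⟩).exists_isPath
  have h1 : w.length = (w.map (SimpleGraph.Embedding.induce Z).toHom).length := by
    rw [SimpleGraph.Walk.length_map]
  have h2 : G.dist z z' ≤ w.length := by
    rw [h1]; exact SimpleGraph.dist_le _
  have h3 := walk_length_le (G := G.induce Z) (F := {x : Z | (x : α) ∈ F})
    (fun p hp q hq hpq => hF p hp q hq hpq) w
  have h4 : (w.support.filter (fun x => decide (x ∉ {x : Z | (x : α) ∈ F}))).length ≤ X.card := by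
    have hnd : (w.support.filter (fun x => decide (x ∉ {x : Z | (x : α) ∈ F}))).Nodup :=
      List.Nodup.filter _ hw.support_nodup
    rw [← List.toFinset_card_of_nodup hnd]
    refine Finset.card_le_card_of_injOn (fun x => (x : α)) ?_ Subtype.val_injective.injOn
    intro x hx
    simp only [Finset.mem_coe, List.mem_toFinset, List.mem_filter, decide_eq_true_eq] at hx
    rcases hZX x x.2 with h | h
    · exact h
    · exact absurd h hx.2
  omega

end conn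

section model
variable {W : Type} {π : ℤ × ℤ → W} {o : W}

lemma lat_reachable_zero (n : ℕ) : ∀ a b : ℤ, a.natAbs + b.natAbs ≤ n → Lat.Reachable (0, 0) (a, b) := by
  induction n with
  | zero =>
    intro a b h
    have ha : a = 0 := by omega
    have hb : b = 0 := by omega
    rw [ha, hb]
  | succ n ih =>
    intro a b h
    rcases lt_trichotomy a 0 with ha | ha | ha
    · refine (ih (a + 1) b (by omega)).trans (SimpleGraph.Adj.reachable ⟨3, ?_⟩)
      simp [dir]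
    · rcases lt_trichotomy b 0 with hb | hb | hb
      · refine (ih a (b + 1) (by omega)).trans (SimpleGraph.Adj.reachable ⟨4, ?_⟩)
        simp [dir]
      · rw [ha, hb]
      · refine (ih a (b - 1) (by omega)).trans (SimpleGraph.Adj.reachable ⟨1, ?_⟩)
        simp [dir]
    · refine (ih (a - 1) b (by omega)).trans (SimpleGraph.Adj.reachable ⟨0, ?_⟩)
      simp [dir]

lemma lat_reachable (x y : ℤ × ℤ) : Lat.Reachable x y := by
  have h : ∀ x : ℤ × ℤ, Lat.Reachable (0, 0) x := fun x => lat_reachable_zero _ x.1 x.2 le_rfl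
  exact (h x).symm.trans (h y)

lemma quo_connected (hM : Model π o) : (Quo π).Connected := by
  have hs : ∀ p, ∃ a, π a = p := by
    intro p
    obtain ⟨a, ha⟩ := (hM.conn p).nonempty
    exact ⟨a, ha⟩
  have key : ∀ x y, (Quo π).Reachable (π x) (π y) := by
    intro x y
    obtain ⟨w⟩ := lat_reachable x y
    induction w with
    | nil => exact SimpleGraph.Reachable.refl _
    | cons hadj w ih =>
      rcases quo_of_lat (π := π) hadj with h | h
      · rw [h]; exact ih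
      · exact h.reachable.trans ih
  exact { preconnected := fun p q => by
            obtain ⟨a, rfl⟩ := hs p
            obtain ⟨b, rfl⟩ := hs q
            exact key a b
          nonempty := ⟨o⟩ }

variable {F : Set W} (hF : ∀ p ∈ F, ∀ q ∈ F, ¬ (Quo π).Adj p q)

/-- in a connected graph with at least two vertices every vertex has a neighbour -/
lemma exists_nbr {α : Type} {G : SimpleGraph α} (hG : G.Connected) {x y : α} (h : x ≠ y) :
    ∃ z, G.Adj x z := by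
  obtain ⟨w⟩ := hG.preconnected x y
  cases w with
  | nil => exact absurd rfl h
  | cons hadj w => exact ⟨_, hadj⟩

include hF in
lemma compl_singleton_conn (hM : Model π o) (hG : Conn (Quo π) Fᶜ) {f : W} (hf : f ∈ F) :
    Conn (Quo π) {f}ᶜ := by
  have hsub : Fᶜ ⊆ ({f} : Set W)ᶜ := by
    rintro x hx rfl
    exact hx hf
  refine conn_of_hits hG hsub ?_
  rintro T hT ⟨x, hx⟩ hcl
  by_cases hxF : x ∈ F
  · obtain ⟨z, hz⟩ := exists_nbr (quo_connected hM) (hT hx : x ≠ f)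
    have hzF : z ∉ F := fun h => hF x hxF z h hz
    exact ⟨z, hcl x hx z (hsub hzF) hz, hzF⟩
  · exact ⟨x, hx, hxF⟩

include hF in
lemma nbr_conn [Finite W] (hM : Model π o) (hG : Conn (Quo π) Fᶜ) {f : W} (hf : f ∈ F) :
    Conn (Quo π) {y | (Quo π).Adj f y} := by
  obtain ⟨g, hg⟩ := hG.1
  have hfg : f ≠ g := by rintro rfl; exact hg hf
  obtain ⟨z, hz⟩ := exists_nbr (quo_connected hM) hfg
  have := boundary_conn hM (conn_singleton (Quo π) f) (compl_singleton_conn hF hM hG hf)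
    ⟨f, rfl, z, hz.ne', hz⟩
  convert this using 1
  ext y
  constructor
  · intro h
    have h' : (Quo π).Adj f y := h
    exact ⟨h'.ne', f, rfl, h'⟩
  · rintro ⟨-, x, rfl, h⟩
    exact h

/-- replacing the vertices in `F` by their neighbourhoods -/
def swell (π : ℤ × ℤ → W) (F B : Set W) : Set W :=
  {x | x ∉ F ∧ (x ∈ B ∨ ∃ f ∈ F, f ∈ B ∧ (Quo π).Adj f x)}

include hF in
lemma swell_conn [Finite W] (hM : Model π o) (hG : Conn (Quo π) Fᶜ) {B : Set W}
    (hB : Conn (Quo π) B) : Conn (Quo π) (swell π F B) := by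
  have hN : ∀ f ∈ F, f ∈ B → ∀ x, (Quo π).Adj f x → x ∈ swell π F B := by
    intro f hf hfB x hx
    exact ⟨fun h => hF f hf x h hx, Or.inr ⟨f, hf, hfB, hx⟩⟩
  refine ⟨?_, ?_⟩
  · obtain ⟨b, hb⟩ := hB.1
    by_cases hbF : b ∈ F
    · obtain ⟨x, hx⟩ := (nbr_conn hF hM hG hbF).1
      exact ⟨x, hN b hbF hb x hx⟩
    · exact ⟨b, hbF, Or.inl hb⟩
  · rintro T ⟨a, ha, haT⟩ hT
    have hNT : ∀ f ∈ F, f ∈ B → (∃ x, (Quo π).Adj f x ∧ x ∈ T) → ∀ x, (Quo π).Adj f x → x ∈ T := by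
      rintro f hf hfB ⟨x, hx, hxT⟩ y hy
      refine (nbr_conn hF hM hG hf).2 T ⟨x, hx, hxT⟩ ?_ hy
      intro u hu huT v hv huv
      exact hT u (hN f hf hfB u hu) huT v (hN f hf hfB v hv) huv
    have hBT : B ⊆ {x | (x ∉ F ∧ x ∈ T) ∨ (x ∈ F ∧ ∃ y, (Quo π).Adj x y ∧ y ∈ T)} := by
      refine hB.2 _ ?_ ?_
      · rcases ha.2 with haB | ⟨f, hf, hfB, hfa⟩
        · exact ⟨a, haB, Or.inl ⟨ha.1, haT⟩⟩
        · exact ⟨f, hfB, Or.inr ⟨hf, a, hfa, haT⟩⟩
      · intro x hx hxT y hy hxy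
        rcases hxT with ⟨hxF, hxT⟩ | ⟨hxF, hxT⟩
        · by_cases hyF : y ∈ F
          · exact Or.inr ⟨hyF, x, hxy.symm, hxT⟩
          · exact Or.inl ⟨hyF, hT x ⟨hxF, Or.inl hx⟩ hxT y ⟨hyF, Or.inl hy⟩ hxy⟩
        · have hyF : y ∉ F := fun h => hF x hxF y h hxy
          exact Or.inl ⟨hyF, hNT x hxF hx hxT y hxy⟩
    rintro x ⟨hxF, hx⟩
    rcases hx with hxB | ⟨f, hf, hfB, hfx⟩
    · rcases hBT hxB with h | h
      · exact h.2
      · exact absurd h.1 hxF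
    · rcases hBT hfB with h | h
      · exact absurd hf h.1
      · exact hNT f hf hfB h.2 x hfx

/-- the separator statement used for `G` of treewidth at most `k` -/
def SepHyp {V : Type} (G : SimpleGraph V) (k : ℕ) : Prop :=
  ∀ (S : Fin (k + 2) → Set V), (∀ i, (G.induce (S i)).Connected) →
    (∀ i j, i ≠ j → Disjoint (S i) (S j)) →
    ∃ i j, i ≠ j ∧ ∃ (X : Finset V) (L : Set V), X.card ≤ k + 1 ∧ S i ⊆ L ∧
      Disjoint (S j) L ∧ Disjoint (S j) (X : Set V) ∧ Disjoint L (X : Set V) ∧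
      ∀ a ∈ L, ∀ b, G.Adj a b → b ∈ L ∨ b ∈ X

/-- symmetric form of the separator statement -/
lemma sep_sym {Γ : SimpleGraph W} {k : ℕ} (hsep : SepHyp (Γ.induce Fᶜ) k)
    (S : Fin (k + 2) → Set W) (hS : ∀ i, Conn Γ (S i)) (hSF : ∀ i, S i ⊆ Fᶜ)
    (hdis : ∀ i j, i ≠ j → Disjoint (S i) (S j)) :
    ∃ i j, i ≠ j ∧ ∃ X : Finset W, X.card ≤ k + 1 ∧ (∀ x ∈ S i, x ∉ X) ∧ (∀ x ∈ S j, x ∉ X) ∧
      ∀ D, Conn Γ D → (∀ x ∈ D, x ∉ X ∧ x ∉ F) → (D ∩ S i).Nonempty → (D ∩ S j).Nonempty →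
        False := by
  classical
  obtain ⟨i, j, hij, X, L, hX, hiL, hjL, hjX, hLX, hcl⟩ := hsep
    (fun i => {x : (Fᶜ : Set W) | (x : W) ∈ S i}) (fun i => conn_iff.2 (conn_induce (hS i) (hSF i)))
    (fun i j hij => by
      rw [Set.disjoint_left]
      intro x hx hx'
      exact Set.disjoint_left.1 (hdis i j hij) hx hx')
  refine ⟨i, j, hij, X.map (Function.Embedding.subtype _), by rwa [Finset.card_map], ?_, ?_, ?_⟩
  · intro x hx hxX
    rw [Finset.mem_map] at hxX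
    obtain ⟨y, hy, rfl⟩ := hxX
    exact Set.disjoint_left.1 hLX (hiL hx) hy
  · intro x hx hxX
    rw [Finset.mem_map] at hxX
    obtain ⟨y, hy, rfl⟩ := hxX
    exact Set.disjoint_left.1 hjX hx hy
  · rintro D hD hDX ⟨a, haD, hai⟩ ⟨b, hbD, hbj⟩
    have hsub : D ⊆ {x | ∃ h : x ∈ Fᶜ, (⟨x, h⟩ : (Fᶜ : Set W)) ∈ L} := by
      refine hD.2 _ ⟨a, haD, hSF i hai, hiL hai⟩ ?_
      rintro x hx ⟨hxF, hxL⟩ y hy hxy
      refine ⟨(hDX y hy).2, ?_⟩
      rcases hcl _ hxL ⟨y, (hDX y hy).2⟩ hxy with h | h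
      · exact h
      · exact absurd (Finset.mem_map.2 ⟨_, h, rfl⟩) (hDX y hy).1
    obtain ⟨h, hbL⟩ := hsub hbD
    exact Set.disjoint_left.1 hjL hbj hbL

/-- an edge leaving a proper nonempty subset of a connected graph -/
lemma exists_edge_out {α : Type} {G : SimpleGraph α} (hG : G.Connected) {U : Set α}
    (h : U.Nonempty) (h' : ∃ x, x ∉ U) : ∃ p ∈ U, ∃ q, q ∉ U ∧ G.Adj p q := by
  by_contra hcon
  push Not at hcon
  obtain ⟨x, hx⟩ := h'
  obtain ⟨u, hu⟩ := h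
  have := (conn_univ_iff.2 hG).2 U ⟨u, trivial, hu⟩ (by
    intro p _ hp q _ hpq
    by_contra hq
    exact hcon p hp q hq hpq)
  exact hx (this (Set.mem_univ x))

/-- a connected separator -/
lemma exists_Z [Finite W] (hM : Model π o) {D Out Y : Set W} (hD : Conn (Quo π) D)
    (hDY : ∀ x ∈ D, ∀ y, (Quo π).Adj x y → y ∈ D ∨ y ∈ Y) (hOut : Conn (Quo π) Out)
    (hdis : Disjoint D Out) :
    ∃ K, Out ⊆ K ∧ Disjoint D K ∧ Conn (Quo π) {y | y ∈ K ∧ ∃ x, x ∉ K ∧ (Quo π).Adj x y} ∧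
      ∀ y ∈ K, (∃ x, x ∉ K ∧ (Quo π).Adj x y) → y ∈ Y := by
  have hsub : Out ⊆ Dᶜ := fun x hx hxD => Set.disjoint_left.1 hdis hxD hx
  obtain ⟨K, hOK, hKD, hK, hKcl⟩ := exists_compo hOut hsub
  have hDK : D ⊆ Kᶜ := fun x hx hxK => hKD hxK hx
  have hfar : ∀ y ∈ K, ∀ x, x ∉ K → (Quo π).Adj x y → x ∈ D := by
    intro y hy x hx hxy
    by_contra hxD
    exact hx (hKcl y hy x hxD hxy.symm)
  have hKc : Conn (Quo π) Kᶜ := by
    refine conn_of_hits hD hDK ?_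
    rintro T hT hTne hcl
    by_contra hcon
    have hTD : ∀ x ∈ T, x ∉ D := fun x hx hxD => hcon ⟨x, hx, hxD⟩
    obtain ⟨k0, hk0⟩ := hK.1
    obtain ⟨p, hp, q, hq, hpq⟩ := exists_edge_out (quo_connected hM) hTne
      ⟨k0, fun h => hT h hk0⟩
    by_cases hqK : q ∈ K
    · exact hTD p hp (hfar q hqK p (hT hp) hpq)
    · exact hq (hcl p hp q hqK hpq)
  have hKKc : Conn (Quo π) Kᶜᶜ := by rwa [compl_compl]
  have hne : ∃ p ∈ Kᶜ, ∃ q ∈ Kᶜᶜ, (Quo π).Adj p q := by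
    obtain ⟨p, hp, q, hq, hpq⟩ := exists_edge_out (quo_connected hM) hKc.1
      ⟨hK.1.some, fun h => h hK.1.some_mem⟩
    exact ⟨p, hp, q, hq, hpq⟩
  refine ⟨K, hOK, Set.disjoint_left.2 fun x hx hxK => hKD hxK hx, ?_, ?_⟩
  · have := boundary_conn hM hKc hKKc hne
    convert this using 1
    ext y
    simp only [Set.mem_ofPred_eq, Set.mem_compl_iff, not_not]
  · rintro y hy ⟨x, hx, hxy⟩
    rcases hDY x (hfar y hy x hx hxy) y hxy with h | h
    · exact absurd hy (fun hyK => hDK h hyK)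
    · exact h

/-- crossing -/
lemma cross {P : ℕ → Prop} {p q : ℕ} (hpq : p ≤ q) (hp : ¬ P p) (hq : P q) :
    ∃ i, p ≤ i ∧ i < q ∧ ¬ P i ∧ P (i + 1) := by
  induction q, hpq using Nat.le_induction with
  | base => exact absurd hq hp
  | succ q hpq ih =>
    by_cases h : P q
    · obtain ⟨i, h1, h2, h3⟩ := ih h
      exact ⟨i, h1, by omega, h3⟩
    · exact ⟨q, hpq, by omega, h, hq⟩

end model

section deep
variable {W : Type} {π : ℤ × ℤ → W} {o : W} {C : Set W} {f : W → ℕ} {k : ℕ}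

/-- the region above level `t` containing two adjacent deep vertices -/
lemma exists_U (hCc : Conn (Quo π) Cᶜ)
    (hd : ∀ x ∈ C, ∃ x', (Quo π).Adj x x' ∧ f x' + 1 = f x) (hoff : ∀ x, x ∉ C → f x ≤ k + 1)
    {c c' : W} (hcc' : (Quo π).Adj c c') {t : ℕ} (ht : k + 1 ≤ t) (hc : t < f c) (hc' : t < f c') :
    ∃ U, c ∈ U ∧ c' ∈ U ∧ (∀ x ∈ U, t < f x) ∧ Conn (Quo π) U ∧
      (∀ x ∈ U, ∀ y, t < f y → (Quo π).Adj x y → y ∈ U) ∧ Conn (Quo π) Uᶜ := by
  obtain ⟨U, hcU, hUt, hU, hcl⟩ := exists_compo (U := {x | t < f x}) (conn_singleton (Quo π) c)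
    (by rintro x rfl; exact hc)
  have hcU' : c ∈ U := hcU rfl
  have hUC : U ⊆ C := by
    intro x hx
    by_contra hxC
    have h1 := hoff x hxC
    have h2 : t < f x := hUt hx
    omega
  refine ⟨U, hcU', hcl c hcU' c' hc' hcc', fun x hx => hUt hx, hU, fun x hx y hy hxy => hcl x hx y hy hxy, ?_⟩
  refine conn_of_hits hCc (Set.compl_subset_compl.2 hUC) ?_
  rintro T hT ⟨x, hx⟩ hTcl
  have key : ∀ s, ∀ x ∈ T, f x = s → (T ∩ Cᶜ).Nonempty := by
    intro s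
    induction s using Nat.strong_induction_on with
    | _ s ih =>
      intro x hx hxs
      by_cases hxC : x ∈ C
      · obtain ⟨x', hxx', hf⟩ := hd x hxC
        have hx'U : x' ∉ U := by
          intro h
          have h1 : t < f x' := hUt h
          exact hT hx (hcl x' h x (show t < f x by omega) hxx'.symm)
        exact ih (f x') (by omega) x' (hTcl x hx x' hx'U hxx') rfl
      · exact ⟨x, hx, hxC⟩
  exact key _ x hx rfl

/-- a vertical path starting in `U` meets the swollen boundary of `U` -/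
lemma hit {F U : Set W} (hF : ∀ p ∈ F, ∀ q ∈ F, ¬ (Quo π).Adj p q)
    (hoff : ∀ x, x ∉ C → f x ≤ k + 1) {t : ℕ} (ht : k + 1 < t)
    (hUt : ∀ x ∈ U, t < f x) (hcl : ∀ x ∈ U, ∀ y, t < f y → (Quo π).Adj x y → y ∈ U)
    {x : W} {n : ℕ} {v : ℕ → W} (hv : Vert (Quo π) C f x n v) (hx : x ∈ U) :
    ∃ p ≤ n, v p ∈ swell π F {y | y ∉ U ∧ ∃ x ∈ U, (Quo π).Adj x y} ∧ t ≤ f (v p) ∧
      f (v p) ≤ t + 1 := by
  have hn := hv.lev n le_rfl
  have hout := hoff _ hv.out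
  have hxt := hUt x hx
  have hmem : ∀ i, i ≤ n → t < f (v i) → v i ∈ U := by
    intro i
    induction i with
    | zero => intro _ _; rw [hv.zero]; exact hx
    | succ i ih =>
      intro hi hti
      have h1 := hv.lev i (by omega)
      have h2 := hv.lev (i + 1) hi
      exact hcl (v i) (ih (by omega) (by omega)) _ hti (hv.adj i (by omega))
  obtain ⟨i, hi⟩ : ∃ i, f x = t + (i + 1) := ⟨f x - t - 1, by omega⟩
  have hin : i + 1 < n := by omega
  have h1 := hv.lev (i + 1) (by omega)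
  have h0 := hv.lev i (by omega)
  have hiU : v i ∈ U := hmem i (by omega) (by omega)
  have hi1U : v (i + 1) ∉ U := fun h => by have := hUt _ h; omega
  have hB : v (i + 1) ∈ {y | y ∉ U ∧ ∃ x ∈ U, (Quo π).Adj x y} :=
    ⟨hi1U, v i, hiU, hv.adj i (by omega)⟩
  by_cases hvF : v (i + 1) ∈ F
  · refine ⟨i, by omega, ⟨fun h => hF _ h _ hvF (hv.adj i (by omega)), Or.inr ⟨_, hvF, hB, ?_⟩⟩,
      by omega, by omega⟩
    exact (hv.adj i (by omega)).symm
  · exact ⟨i + 1, by omega, ⟨hvF, Or.inl hB⟩, by omega, by omega⟩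

theorem deep [Finite W] (hM : Model π o) {F : Set W}
    (hF : ∀ p ∈ F, ∀ q ∈ F, ¬ (Quo π).Adj p q) (hG : Conn (Quo π) Fᶜ)
    (hsep : SepHyp ((Quo π).induce Fᶜ) k) (hCc : Conn (Quo π) Cᶜ) (hf : Lip (Quo π) f)
    (hd : ∀ x ∈ C, ∃ x', (Quo π).Adj x x' ∧ f x' + 1 = f x) (hoff : ∀ x, x ∉ C → f x ≤ k + 1)
    {c c' : W} (hcc' : (Quo π).Adj c c') (hc : 7 * k + 8 < f c) (hc' : 7 * k + 8 < f c')
    {n n' : ℕ} {v v' : ℕ → W} (hv : Vert (Quo π) C f c n v) (hv' : Vert (Quo π) C f c' n' v') :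
    ∃ a a', a < n ∧ a' < n' ∧ 4 * k + 5 ≤ f (v a) ∧ f (v a) ≤ 7 * k + 8 ∧
      4 * k + 5 ≤ f (v' a') ∧ f (v' a') ≤ 7 * k + 8 ∧
      (Quo π).dist (v a) (v' a') ≤ 2 * k + 2 := by
  classical
  have hU : ∀ j : Fin (k + 2), ∃ U, c ∈ U ∧ c' ∈ U ∧ (∀ x ∈ U, 4 * k + 5 + 3 * j.1 < f x) ∧
      Conn (Quo π) U ∧ (∀ x ∈ U, ∀ y, 4 * k + 5 + 3 * j.1 < f y → (Quo π).Adj x y → y ∈ U) ∧
      Conn (Quo π) Uᶜ := by
    intro j
    have := j.2
    exact exists_U hCc hd hoff hcc' (by omega) (by omega) (by omega)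
  choose U hU1 hU2 hU3 hU4 hU5 hU6 using hU
  set B : Fin (k + 2) → Set W := fun j => {y | y ∉ U j ∧ ∃ x ∈ U j, (Quo π).Adj x y} with hB
  have hBc : ∀ j, Conn (Quo π) (B j) := by
    intro j
    obtain ⟨p, hp, q, hq, hpq⟩ := exists_edge_out (quo_connected hM) (hU4 j).1 (hU6 j).1
    exact boundary_conn hM (hU4 j) (hU6 j) ⟨p, hp, q, hq, hpq⟩
  have hBt : ∀ j, ∀ y ∈ B j, f y = 4 * k + 5 + 3 * j.1 := by
    rintro j y ⟨hy, x, hx, hxy⟩
    have h1 := hU3 j x hx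
    have h2 := hf x y hxy
    by_contra hne
    exact hy (hU5 j x hx y (by omega) hxy)
  have hSt : ∀ j, ∀ y ∈ swell π F (B j), 4 * k + 5 + 3 * j.1 ≤ f y + 1 ∧
      f y ≤ 4 * k + 5 + 3 * j.1 + 1 := by
    rintro j y ⟨-, h | ⟨g, -, hg, hgy⟩⟩
    · have := hBt j y h; omega
    · have h1 := hBt j g hg
      have h2 := hf g y hgy
      have h3 := hf y g hgy.symm
      omega
  obtain ⟨i, j, hij, X, hX, hiX, hjX, hno⟩ := sep_sym hsep (fun j => swell π F (B j))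
    (fun j => swell_conn hF hM hG (hBc j)) (fun j x hx => hx.1) (by
      intro i j hij
      rw [Set.disjoint_left]
      intro x hx hx'
      have h1 := hSt i x hx
      have h2 := hSt j x hx'
      apply hij
      ext
      omega)
  -- arrange that the first one is the inner one
  obtain ⟨i, j, hij, hiX, hjX, hno⟩ : ∃ i j : Fin (k + 2), j.1 < i.1 ∧
      (∀ x ∈ swell π F (B i), x ∉ X) ∧ (∀ x ∈ swell π F (B j), x ∉ X) ∧
      ∀ D, Conn (Quo π) D → (∀ x ∈ D, x ∉ X ∧ x ∉ F) → (D ∩ swell π F (B i)).Nonempty →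
        (D ∩ swell π F (B j)).Nonempty → False := by
    rcases lt_or_gt_of_ne (fun h => hij (Fin.ext h) : i.1 ≠ j.1) with h | h
    · exact ⟨j, i, h, hjX, hiX, fun D h1 h2 h3 h4 => hno D h1 h2 h4 h3⟩
    · exact ⟨i, j, h, hiX, hjX, hno⟩
  obtain ⟨D, hSD, hDY, hD, hDcl⟩ := exists_compo (U := {x | x ∉ X ∧ x ∉ F})
    (swell_conn hF hM hG (hBc i)) (fun x hx => ⟨hiX x hx, hx.1⟩)
  have hdis : Disjoint D (swell π F (B j)) := by
    rw [Set.disjoint_left]
    intro x hx hx'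
    obtain ⟨y, hy⟩ := (swell_conn hF hM hG (hBc i)).1
    exact hno D hD (fun z hz => hDY hz) ⟨y, hSD hy, hy⟩ ⟨x, hx, hx'⟩
  obtain ⟨K, hOK, hDK, hZ, hZY⟩ := exists_Z hM (Y := {x | x ∈ X ∨ x ∈ F}) hD (by
    intro x hx y hxy
    by_cases hy : y ∈ X ∨ y ∈ F
    · exact Or.inr hy
    · push Not at hy
      exact Or.inl (hDcl x hx y hy hxy)) (swell_conn hF hM hG (hBc j)) hdis
  have hi := i.2
  have find : ∀ {c : W} {n : ℕ} {v : ℕ → W}, Vert (Quo π) C f c n v → (∀ j, c ∈ U j) →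
      ∃ a, a < n ∧ 4 * k + 5 ≤ f (v a) ∧ f (v a) ≤ 7 * k + 8 ∧
        v a ∈ {y | y ∈ K ∧ ∃ x, x ∉ K ∧ (Quo π).Adj x y} := by
    intro c n v hv hcU
    obtain ⟨p, hpn, hp, hp1, hp2⟩ := hit hF hoff (by omega) (hU3 i) (hU5 i) hv (hcU i)
    obtain ⟨q, hqn, hq, hq1, hq2⟩ := hit hF hoff (by omega) (hU3 j) (hU5 j) hv (hcU j)
    have lp := hv.lev p hpn
    have lq := hv.lev q hqn
    obtain ⟨s, h1, h2, h3, h4⟩ := cross (P := fun i => v i ∈ K) (p := p) (q := q) (by omega)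
      (fun h => Set.disjoint_left.1 hDK (hSD hp) h) (hOK hq)
    have ls := hv.lev (s + 1) (by omega)
    refine ⟨s + 1, ?_, by omega, by omega, h4, v s, h3, hv.adj s (by omega)⟩
    have hn := hv.lev n le_rfl
    have hout := hoff _ hv.out
    omega
  obtain ⟨a, ha, ha1, ha2, haZ⟩ := find hv hU1
  obtain ⟨a', ha', ha1', ha2', haZ'⟩ := find hv' hU2
  refine ⟨a, a', ha, ha', ha1, ha2, ha1', ha2', ?_⟩
  exact dist_le_of_conn hZ hF (fun z hz => hZY z hz.1 hz.2) hX haZ haZ'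

end deep

end PS
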