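import Mathlib

set_option autoImplicit false

/-!
Common definitions for MP_8191b7_co (product structure preserving treewidth).
-/

namespace PS

/-- tree decompositions of width at most `k`, exactly as in the frozen statement -/
def HasTW {V : Type} (G : SimpleGraph V) (k : ℕ) : Prop :=
  ∃ (m : ℕ) (T : SimpleGraph (Fin m)) (B : Fin m → Finset V),
    T.IsTree ∧ (∀ u v, G.Adj u v → ∃ t, u ∈ B t ∧ v ∈ B t) ∧
    (∀ v, (T.induce {t | v ∈ B t}).Connected) ∧ ∀ t, (B t).card ≤ k + 1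

/-- strong product with a path, as in the frozen statement -/
def SP {a : ℕ} (H : SimpleGraph (Fin a)) (b : ℕ) : SimpleGraph (Fin a × Fin b) :=
  SimpleGraph.fromRel (fun p q : Fin a × Fin b =>
    (p.1 = q.1 ∨ H.Adj p.1 q.1) ∧ (p.2 = q.2 ∨ (SimpleGraph.pathGraph b).Adj p.2 q.2))

/-- plane drawings, as in the frozen statement -/
def Drawable {V : Type} (G : SimpleGraph V) : Prop :=
  ∃ (f : V → ℂ) (γ : ∀ u v : V, G.Adj u v → Path (f u) (f v)),
        Function.Injective f ∧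
        (∀ (u v : V) (h : G.Adj u v), Function.Injective ⇑(γ u v h)) ∧
        (∀ (u v : V) (h : G.Adj u v) (s : unitInterval) (w : V),
          γ u v h s = f w → w = u ∨ w = v) ∧
        (∀ (u v x y : V) (h : G.Adj u v) (h' : G.Adj x y) (s t : unitInterval),
          γ u v h s = γ x y h' t → s(u, v) ≠ s(x, y) →
            ∃ w : V, (w = u ∨ w = v) ∧ (w = x ∨ w = y) ∧ γ u v h s = f w)

/-- the six directions of the triangular lattice on `ℤ × ℤ` -/
def dir : Fin 6 → ℤ × ℤ := ![(1, 0), (0, 1), (-1, 1), (-1, 0), (0, -1), (1, -1)]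

/-- the triangular lattice -/
def Lat : SimpleGraph (ℤ × ℤ) where
  Adj a b := ∃ j, b = a + dir j
  symm := ⟨by
    rintro a b ⟨j, rfl⟩
    refine ⟨j + 3, ?_⟩
    have : dir j + dir (j + 3) = 0 := by revert j; decide
    rw [add_assoc, this, add_zero]⟩
  loopless := ⟨by
    rintro a ⟨j, hj⟩
    have h0 : ∀ j, dir j ≠ 0 := by decide
    exact h0 j (by simpa using hj.symm)⟩

/-- the quotient graph of the lattice under a map `π` -/
def Quo {W : Type} (π : ℤ × ℤ → W) : SimpleGraph W where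
  Adj p q := p ≠ q ∧ ∃ a b, Lat.Adj a b ∧ π a = p ∧ π b = q
  symm := ⟨by
    rintro p q ⟨h, a, b, hab, rfl, rfl⟩
    exact ⟨h.symm, b, a, hab.symm, rfl, rfl⟩⟩
  loopless := ⟨by rintro p ⟨h, _⟩; exact h rfl⟩

/-- the combinatorial certificate from which the product structure is read off:
`lab` is the part of a vertex, `μ` its level, `A i` the (at most `d`) earlier parts attached to
the part `i`, `par` the tree structure on the parts. -/
def Cert {V : Type} (G : SimpleGraph V) (b m d : ℕ) : Prop :=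
  ∃ (ι : Type) (_ : Fintype ι) (lab : V → ι) (μ : V → ℕ) (A : ι → Finset ι)
    (par : ι → ι) (rk : ι → ℕ),
    (∀ v, μ v < b) ∧
    (∀ u v, G.Adj u v → μ u ≤ μ v + 1) ∧
    (∀ i n, Set.ncard {v | lab v = i ∧ μ v = n} ≤ m) ∧
    (∀ i, (A i).card ≤ d) ∧
    (∀ u v, G.Adj u v → lab u = lab v ∨ lab u ∈ A (lab v) ∨ lab v ∈ A (lab u)) ∧
    (∀ i, A i = ∅ ∨ (rk (par i) < rk i ∧ ∀ x ∈ A i, x = par i ∨ x ∈ A (par i)))

/-- number of label changes seen when walking around the region `C` -/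
noncomputable def chg {W ι : Type} (π : ℤ × ℤ → W) (lab : W → ι) (C : Set W) : ℕ :=
  Set.ncard {d : (ℤ × ℤ) × Fin 6 | π d.1 ∈ C ∧ π (d.1 + dir d.2) ∉ C ∧
    π (d.1 + dir (d.2 + 1)) ∉ C ∧ lab (π (d.1 + dir d.2)) ≠ lab (π (d.1 + dir (d.2 + 1)))}

/-- the standing hypotheses on a planar model -/
structure Model {W : Type} (π : ℤ × ℤ → W) (o : W) : Prop where
  conn : ∀ p, (Lat.induce (π ⁻¹' {p})).Connected
  fin : ∀ p, p ≠ o → (π ⁻¹' {p}).Finite

end PS
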