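import Pool.Agent.Lib_helper70.PS.Block

set_option autoImplicit false

/-!
A Hex-type lemma, by double counting.
-/

namespace PS

lemma rot3 (d : Dart) : rot (rot (rot d)) = d := by
  have h : ∀ j : Fin 6, j + 2 + 2 + 2 = j := by decide
  have h2 : ∀ j : Fin 6, dir j + (dir (j + 2) + dir (j + 2 + 2)) = 0 := by decide
  refine Prod.ext ?_ (h _)
  show d.1 + dir d.2 + dir (d.2 + 2) + dir (d.2 + 2 + 2) = d.1
  rw [add_assoc, add_assoc, h2, add_zero]

/-- rotation as a permutation of the darts -/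
def rotE : Dart ≃ Dart where
  toFun := rot
  invFun d := rot (rot d)
  left_inv d := rot3 d
  right_inv d := rot3 d

/-- edges of type `{0,1}` -/
noncomputable def qq (a b : ZMod 4) : ZMod 2 := ind ((a = 0 ∧ b = 1) ∨ (a = 1 ∧ b = 0))

lemma qq_comm (a b : ZMod 4) : qq a b = qq b a := by
  unfold qq; congr 1; apply propext; tauto

/-- decidable version of `qq` -/
def qd (a b : ZMod 4) : ZMod 2 := if (a = 0 ∧ b = 1) ∨ (a = 1 ∧ b = 0) then 1 else 0

lemma qq_eq (a b : ZMod 4) : qq a b = qd a b := by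
  unfold qq qd
  by_cases h : (a = 0 ∧ b = 1) ∨ (a = 1 ∧ b = 0)
  · rw [ind_true h, if_pos h]
  · rw [ind_false h, if_neg h]

lemma qd_tri : ∀ a b c : ZMod 4, b ≠ a + 2 → c ≠ b + 2 → c ≠ a + 2 →
    qd a b + qd b c + qd a c = 0 := by decide

lemma qd_change : ∀ a b c : ZMod 4, b ≠ a + 2 → c ≠ a + 2 → (c = b ∨ c = b + 1) →
    qd a b + qd a c = if (b = 0 ∧ c = 1) then 1 else 0 := by decide

lemma opp_comm : ∀ a b : ZMod 4, b ≠ a + 2 ↔ a ≠ b + 2 := by decide

section
variable (P : Set (ℤ × ℤ)) (κ : ℤ × ℤ → ZMod 4) (ρ : Dart → ZMod 4)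

open Classical in
/-- counted edges -/
noncomputable def phi (d : Dart) : ZMod 2 :=
  if d.1 ∈ P then (if tip d ∈ P then qq (κ d.1) (κ (tip d)) else qq (κ d.1) (ρ d))
  else (if tip d ∈ P then qq (κ (tip d)) (ρ (rev d)) else 0)

lemma phi_in_in {d : Dart} (h1 : d.1 ∈ P) (h2 : tip d ∈ P) :
    phi P κ ρ d = qq (κ d.1) (κ (tip d)) := by rw [phi, if_pos h1, if_pos h2]
lemma phi_in_out {d : Dart} (h1 : d.1 ∈ P) (h2 : tip d ∉ P) :
    phi P κ ρ d = qq (κ d.1) (ρ d) := by rw [phi, if_pos h1, if_neg h2]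
lemma phi_out_in {d : Dart} (h1 : d.1 ∉ P) (h2 : tip d ∈ P) :
    phi P κ ρ d = qq (κ (tip d)) (ρ (rev d)) := by rw [phi, if_neg h1, if_pos h2]
lemma phi_out_out {d : Dart} (h1 : d.1 ∉ P) (h2 : tip d ∉ P) :
    phi P κ ρ d = 0 := by rw [phi, if_neg h1, if_neg h2]

lemma phi_rev (d : Dart) : phi P κ ρ (rev d) = phi P κ ρ d := by
  by_cases h1 : d.1 ∈ P <;> by_cases h2 : tip d ∈ P
  · rw [phi_in_in P κ ρ h1 h2, phi_in_in P κ ρ (d := rev d) h2 (by rw [tip_rev]; exact h1), tip_rev,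
      rev_fst, qq_comm]
  · rw [phi_in_out P κ ρ h1 h2, phi_out_in P κ ρ (d := rev d) h2 (by rw [tip_rev]; exact h1),
      tip_rev, rev_rev]
  · rw [phi_out_in P κ ρ h1 h2, phi_in_out P κ ρ (d := rev d) h2 (by rw [tip_rev]; exact h1),
      rev_fst]
  · rw [phi_out_out P κ ρ h1 h2, phi_out_out P κ ρ (d := rev d) h2 (by rw [tip_rev]; exact h1)]

/-- the change faces -/
def EE (d : Dart) : Prop :=
  IsCut P d ∧ d.1 + dir (d.2 + 1) ∉ P ∧ ρ d = 0 ∧ ρ (nxt P d) = 1

variable (hin : ∀ d : Dart, d.1 ∈ P → tip d ∈ P → κ (tip d) ≠ κ d.1 + 2)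
  (hcut : ∀ d, IsCut P d → ρ d ≠ κ d.1 + 2)
  (hB : ∀ d, IsCut P d → d.1 + dir (d.2 + 1) ∈ P → ρ (nxt P d) = ρ d)
  (hC : ∀ d, IsCut P d → d.1 + dir (d.2 + 1) ∉ P → ρ (nxt P d) = ρ d ∨ ρ (nxt P d) = ρ d + 1)

lemma tip_rot (d : Dart) : tip (rot d) = d.1 + dir (d.2 + 1) := by
  show d.1 + dir d.2 + dir (d.2 + 2) = _
  rw [add_assoc, dir_add_two]

lemma tip_rot_rot (d : Dart) : tip (rot (rot d)) = d.1 := by
  have := congrArg Prod.fst (rot3 d)
  exact this

lemma rot_fst (d : Dart) : (rot d).1 = tip d := rfl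

/-- the reverse of the third dart of a face is the successor of the first one, if the third
vertex is outside -/
lemma rev_rot_rot (d : Dart) : rev (rot (rot d)) = (d.1, d.2 + 1) := by
  have h : ∀ j : Fin 6, j + 2 + 2 + 3 = j + 1 := by decide
  exact Prod.ext (tip_rot_rot d) (h _)

include hin hcut hB hC

lemma face_one {d : Dart} (h1 : d.1 ∈ P) (h2 : tip d ∉ P) (h3 : d.1 + dir (d.2 + 1) ∉ P) :
    phi P κ ρ d + phi P κ ρ (rot d) + phi P κ ρ (rot (rot d)) =
      ind (EE P ρ d) + ind (EE P ρ (rot d)) + ind (EE P ρ (rot (rot d))) := by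
  have hd : IsCut P d := ⟨h1, h2⟩
  have hn : nxt P d = (d.1, d.2 + 1) := nxt_of_not_mem h3
  have e1 : phi P κ ρ d = qd (κ d.1) (ρ d) := by rw [phi_in_out P κ ρ h1 h2, qq_eq]
  have e2 : phi P κ ρ (rot d) = 0 :=
    phi_out_out P κ ρ (d := rot d) h2 (by rw [tip_rot]; exact h3)
  have e3 : phi P κ ρ (rot (rot d)) = qd (κ d.1) (ρ (nxt P d)) := by
    rw [phi_out_in P κ ρ (d := rot (rot d)) (by rw [rot_fst, tip_rot]; exact h3)
      (by rw [tip_rot_rot]; exact h1), tip_rot_rot, rev_rot_rot, ← hn, qq_eq]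
  have e4 : ind (EE P ρ (rot d)) = 0 := ind_false fun h => h2 h.1.1
  have e5 : ind (EE P ρ (rot (rot d))) = 0 :=
    ind_false fun h => h3 (by have := h.1.1; rwa [rot_fst, tip_rot] at this)
  have hnc : IsCut P (nxt P d) := nxt_cut hd
  have hnk : ρ (nxt P d) ≠ κ d.1 + 2 := by
    have := hcut _ hnc
    rw [hn] at this ⊢
    exact this
  have e6 := qd_change (κ d.1) (ρ d) (ρ (nxt P d)) (hcut d hd) hnk (hC d hd h3)
  rw [e1, e2, e3, e4, e5, add_zero, add_zero, add_zero, e6]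
  by_cases h : ρ d = 0 ∧ ρ (nxt P d) = 1
  · rw [if_pos h, ind_true ⟨hd, h3, h.1, h.2⟩]
  · rw [if_neg h, ind_false fun h' => h ⟨h'.2.2.1, h'.2.2.2⟩]

lemma face_two {d : Dart} (h1 : d.1 ∈ P) (h2 : tip d ∈ P) (h3 : d.1 + dir (d.2 + 1) ∉ P) :
    phi P κ ρ d + phi P κ ρ (rot d) + phi P κ ρ (rot (rot d)) =
      ind (EE P ρ d) + ind (EE P ρ (rot d)) + ind (EE P ρ (rot (rot d))) := by
  have hc2 : IsCut P (rot d) := ⟨h2, by rw [tip_rot]; exact h3⟩
  have ht2 : (rot d).1 + dir ((rot d).2 + 1) ∈ P := by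
    have := tip_rot (rot d)
    rw [← this, tip_rot_rot]; exact h1
  have hn : nxt P (rot d) = rev (rot (rot d)) := by
    rw [nxt_of_mem ht2, rev_rot_rot]
    have := tip_rot (rot d)
    rw [tip_rot_rot] at this
    have h : ∀ j : Fin 6, j + 2 - 1 = j + 1 := by decide
    exact Prod.ext this.symm (h _)
  have e1 : phi P κ ρ d = qd (κ d.1) (κ (tip d)) := by rw [phi_in_in P κ ρ h1 h2, qq_eq]
  have e2 : phi P κ ρ (rot d) = qd (κ (tip d)) (ρ (rot d)) := by
    rw [phi_in_out P κ ρ hc2.1 hc2.2, qq_eq, rot_fst]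
  have e3 : phi P κ ρ (rot (rot d)) = qd (κ d.1) (ρ (rot d)) := by
    rw [phi_out_in P κ ρ (d := rot (rot d)) (by rw [rot_fst, tip_rot]; exact h3)
      (by rw [tip_rot_rot]; exact h1), tip_rot_rot, ← hn, hB _ hc2 ht2, qq_eq]
  have e4 : ind (EE P ρ d) = 0 := ind_false fun h => h.1.2 h2
  have e5 : ind (EE P ρ (rot d)) = 0 := ind_false fun h => h.2.1 ht2
  have e6 : ind (EE P ρ (rot (rot d))) = 0 :=
    ind_false fun h => h3 (by have := h.1.1; rwa [rot_fst, tip_rot] at this)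
  have k3 : ρ (rot d) ≠ κ d.1 + 2 := by
    have hnc : IsCut P (nxt P (rot d)) := nxt_cut hc2
    have := hcut _ hnc
    rw [hB _ hc2 ht2, hn, rev_fst, tip_rot_rot] at this
    exact this
  rw [e1, e2, e3, e4, e5, e6, add_zero, add_zero]
  exact qd_tri _ _ _ (hin d h1 h2) (hcut _ hc2) k3

lemma face_three {d : Dart} (h1 : d.1 ∈ P) (h2 : tip d ∈ P) (h3 : d.1 + dir (d.2 + 1) ∈ P) :
    phi P κ ρ d + phi P κ ρ (rot d) + phi P κ ρ (rot (rot d)) =
      ind (EE P ρ d) + ind (EE P ρ (rot d)) + ind (EE P ρ (rot (rot d))) := by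
  have e1 : phi P κ ρ d = qd (κ d.1) (κ (tip d)) := by rw [phi_in_in P κ ρ h1 h2, qq_eq]
  have e2 : phi P κ ρ (rot d) = qd (κ (tip d)) (κ (tip (rot d))) := by
    rw [phi_in_in P κ ρ (d := rot d) h2 (by rw [tip_rot]; exact h3), qq_eq, rot_fst]
  have e3 : phi P κ ρ (rot (rot d)) = qd (κ d.1) (κ (tip (rot d))) := by
    rw [phi_in_in P κ ρ (d := rot (rot d)) (by rw [rot_fst, tip_rot]; exact h3)
      (by rw [tip_rot_rot]; exact h1), tip_rot_rot, qq_comm, qq_eq, rot_fst]
  have e4 : ind (EE P ρ d) = 0 := ind_false fun h => h.1.2 h2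
  have e5 : ind (EE P ρ (rot d)) = 0 :=
    ind_false fun h => h.1.2 (by rw [tip_rot]; exact h3)
  have e6 : ind (EE P ρ (rot (rot d))) = 0 :=
    ind_false fun h => h.1.2 (by rw [tip_rot_rot]; exact h1)
  rw [e1, e2, e3, e4, e5, e6, add_zero, add_zero]
  refine qd_tri _ _ _ (hin d h1 h2) (hin (rot d) h2 (by rw [tip_rot]; exact h3)) ?_
  rw [opp_comm]
  have := hin (rot (rot d)) (by rw [rot_fst, tip_rot]; exact h3) (by rw [tip_rot_rot]; exact h1)
  rwa [tip_rot_rot, rot_fst] at this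

lemma face_all (d : Dart) :
    phi P κ ρ d + phi P κ ρ (rot d) + phi P κ ρ (rot (rot d)) =
      ind (EE P ρ d) + ind (EE P ρ (rot d)) + ind (EE P ρ (rot (rot d))) := by
  have t1 := tip_rot d
  have t2 := tip_rot_rot d
  have t3 : (rot (rot d)).1 = d.1 + dir (d.2 + 1) := by rw [rot_fst, tip_rot]
  have r3 := rot3 d
  -- rotated statements
  have u1 : (rot d).1 + dir ((rot d).2 + 1) = d.1 := by rw [← tip_rot (rot d), tip_rot_rot]
  have u2 : (rot (rot d)).1 + dir ((rot (rot d)).2 + 1) = tip d := by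
    rw [← tip_rot (rot (rot d)), r3]
  by_cases h1 : d.1 ∈ P <;> by_cases h2 : tip d ∈ P <;> by_cases h3 : d.1 + dir (d.2 + 1) ∈ P
  · exact face_three P κ ρ hin hcut hB hC h1 h2 h3
  · exact face_two P κ ρ hin hcut hB hC h1 h2 h3
  · have := face_two P κ ρ hin hcut hB hC (d := rot (rot d)) (by rw [t3]; exact h3)
      (by rw [t2]; exact h1) (by rw [u2]; exact h2)
    rw [r3] at this
    linear_combination this
  · exact face_one P κ ρ hin hcut hB hC h1 h2 h3
  · have := face_two P κ ρ hin hcut hB hC (d := rot d) h2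
      (by rw [t1]; exact h3) (by rw [u1]; exact h1)
    rw [r3] at this
    linear_combination this
  · have := face_one P κ ρ hin hcut hB hC (d := rot d) h2
      (by rw [t1]; exact h3) (by rw [u1]; exact h1)
    rw [r3] at this
    linear_combination this
  · have := face_one P κ ρ hin hcut hB hC (d := rot (rot d)) (by rw [t3]; exact h3)
      (by rw [t2]; exact h1) (by rw [u2]; exact h2)
    rw [r3] at this
    linear_combination this
  · rw [phi_out_out P κ ρ h1 h2, phi_out_out P κ ρ (d := rot d) h2 (by rw [t1]; exact h3),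
      phi_out_out P κ ρ (d := rot (rot d)) (by rw [t3]; exact h3) (by rw [t2]; exact h1),
      ind_false fun h => h1 h.1.1, ind_false fun h => h2 h.1.1,
      ind_false fun h => h3 (by have := h.1.1; rwa [t3] at this)]

/-- **Hex lemma** -/
theorem hex (hfin : P.Finite) (hE : ∃! d, EE P ρ d) : False := by
  classical
  have hs1 : (Function.support (phi P κ ρ)).Finite := by
    have : Function.support (phi P κ ρ) ⊆ (P ×ˢ (Set.univ : Set (Fin 6))) ∪
        rev ⁻¹' (P ×ˢ (Set.univ : Set (Fin 6))) := by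
      intro d hd
      by_cases h1 : d.1 ∈ P
      · exact Or.inl ⟨h1, Set.mem_univ _⟩
      · by_cases h2 : tip d ∈ P
        · exact Or.inr ⟨h2, Set.mem_univ _⟩
        · exact absurd (phi_out_out P κ ρ h1 h2) hd
    refine Set.Finite.subset (Set.Finite.union (hfin.prod Set.finite_univ) ?_) this
    refine Set.Finite.preimage ?_ (hfin.prod Set.finite_univ)
    exact (Function.Involutive.injective rev_rev).injOn
  have hs2 : (Function.support fun d => ind (EE P ρ d)).Finite := by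
    refine Set.Finite.subset (hfin.prod (Set.finite_univ (α := Fin 6))) ?_
    intro d hd
    by_contra h
    apply hd
    exact ind_false fun h' => h ⟨h'.1.1, Set.mem_univ _⟩
  have hshift : ∀ f : Dart → ZMod 2, (Function.support f).Finite →
      (Function.support fun d => f (rot d)).Finite := by
    intro f hf
    exact hf.preimage (rotE.injective.injOn)
  have hrot : ∀ f : Dart → ZMod 2, ∑ᶠ d, f (rot d) = ∑ᶠ d, f d := fun f =>
    finsum_comp_equiv rotE (f := f)
  have three : ∀ f : Dart → ZMod 2, (Function.support f).Finite →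
      ∑ᶠ d, (f d + f (rot d) + f (rot (rot d))) = ∑ᶠ d, f d := by
    intro f hf
    have hf1 := hshift f hf
    have hf2 := hshift _ hf1
    rw [finsum_add_distrib, finsum_add_distrib hf hf1, hrot f]
    · have e : ∑ᶠ d, f (rot (rot d)) = ∑ᶠ d, f d := by
        rw [hrot (fun d => f (rot d)), hrot f]
      rw [e, add_self2, zero_add]
    · exact (hf.union hf1).subset (Function.support_add _ _)
    · exact hf2
  have key : ∑ᶠ d, phi P κ ρ d = ∑ᶠ d, ind (EE P ρ d) := by
    rw [← three _ hs1, ← three _ hs2]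
    exact finsum_congr fun d => face_all P κ ρ hin hcut hB hC d
  have z1 : ∑ᶠ d, phi P κ ρ d = 0 := by
    rw [finsum_eq_sum_of_support_subset (s := hs1.toFinset) _ (by simp)]
    refine Finset.sum_involution (fun d _ => rev d) ?_ ?_ ?_ ?_
    · intro d _
      rw [phi_rev, add_self2]
    · intro d _ _
      exact rev_ne d
    · intro d hd
      rw [Set.Finite.mem_toFinset, Function.mem_support] at hd ⊢
      rwa [phi_rev]
    · intro d _
      exact rev_rev d
  obtain ⟨d0, hd0, huniq⟩ := hE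
  have z2 : ∑ᶠ d, ind (EE P ρ d) = 1 := by
    rw [finsum_eq_single _ d0]
    · exact ind_true hd0
    · intro d hd
      exact ind_false fun h => hd (huniq d h)
  rw [z1, z2] at key
  exact absurd key (by decide)

end

end PS
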