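import Pool.Agent.Lib_helper70.PS.StepPlanar

set_option autoImplicit false

/-!
Lipschitz functions on graphs: largest extension, vertical paths, folding.
-/

namespace PS

section
variable {W : Type} {G : SimpleGraph W}

/-- 1-Lipschitz functions -/
def Lip (G : SimpleGraph W) (f : W → ℕ) : Prop := ∀ x y, G.Adj x y → f x ≤ f y + 1

lemma Lip.dist {f : W → ℕ} (hf : Lip G f) (hG : G.Connected) (x y : W) :
    f x ≤ f y + G.dist x y := by
  obtain ⟨p, hp⟩ := hG.exists_walk_length_eq_dist x y
  rw [← hp]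
  clear hp
  induction p with
  | nil => simp
  | cons h p ih =>
    have := hf _ _ h
    rw [SimpleGraph.Walk.length_cons]
    omega

/-- a neighbour that is closer -/
lemma exists_closer (hG : G.Connected) {x y : W} (h : x ≠ y) :
    ∃ z, G.Adj x z ∧ G.dist z y + 1 = G.dist x y := by
  obtain ⟨p, hp⟩ := hG.exists_walk_length_eq_dist x y
  cases p with
  | nil => exact absurd rfl h
  | @cons _ z _ hxz q =>
    refine ⟨z, hxz, ?_⟩
    rw [SimpleGraph.Walk.length_cons] at hp
    have h1 := SimpleGraph.dist_le q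
    have h2 := hG.dist_triangle (u := x) (v := z) (w := y)
    have h3 : G.dist x z ≤ 1 := by
      rw [SimpleGraph.dist_eq_one_iff_adj.2 hxz]
    omega

/-- the largest 1-Lipschitz extension -/
noncomputable def lam (G : SimpleGraph W) (C : Set W) (μ : W → ℕ) (x : W) : ℕ :=
  sInf {n | ∃ y, y ∉ C ∧ n = μ y + G.dist x y}

variable {C : Set W} {μ : W → ℕ}

lemma lam_le {x y : W} (hy : y ∉ C) : lam G C μ x ≤ μ y + G.dist x y :=
  Nat.sInf_le ⟨y, hy, rfl⟩

lemma lam_attained (hne : ∃ y, y ∉ C) (x : W) : ∃ y, y ∉ C ∧ lam G C μ x = μ y + G.dist x y := by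
  obtain ⟨y, hy⟩ := hne
  exact Nat.sInf_mem (s := {n | ∃ y, y ∉ C ∧ n = μ y + G.dist x y}) ⟨_, y, hy, rfl⟩

lemma lam_lip (hG : G.Connected) (hne : ∃ y, y ∉ C) : Lip G (lam G C μ) := by
  intro x x' hxx'
  obtain ⟨y, hy, h⟩ := lam_attained (G := G) (μ := μ) hne x'
  rw [h]
  have h1 := lam_le (G := G) (μ := μ) (x := x) hy
  have h2 := hG.dist_triangle (u := x) (v := x') (w := y)
  rw [SimpleGraph.dist_eq_one_iff_adj.2 hxx'] at h2
  omega

lemma lam_off (hG : G.Connected) (hμ : Lip G μ) {x : W} (hx : x ∉ C) : lam G C μ x = μ x := by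
  apply le_antisymm
  · have := lam_le (G := G) (μ := μ) (x := x) hx
    rwa [SimpleGraph.dist_self, add_zero] at this
  · obtain ⟨y, hy, h⟩ := lam_attained (G := G) (μ := μ) ⟨x, hx⟩ x
    rw [h]
    exact hμ.dist hG x y

lemma lam_desc (hG : G.Connected) (hne : ∃ y, y ∉ C) {x : W} (hx : x ∈ C) :
    ∃ x', G.Adj x x' ∧ lam G C μ x' + 1 = lam G C μ x := by
  obtain ⟨y, hy, h⟩ := lam_attained (G := G) (μ := μ) hne x
  obtain ⟨z, hz, hzd⟩ := exists_closer hG (x := x) (y := y) (by rintro rfl; exact hy hx)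
  refine ⟨z, hz, ?_⟩
  have h1 := lam_le (G := G) (μ := μ) (x := z) hy
  have h2 := lam_lip (μ := μ) hG hne x z hz
  omega

/-- vertical paths -/
structure Vert (G : SimpleGraph W) (C : Set W) (f : W → ℕ) (x : W) (n : ℕ) (v : ℕ → W) : Prop where
  pos : 0 < n
  zero : v 0 = x
  mem : ∀ i, i < n → v i ∈ C
  out : v n ∉ C
  adj : ∀ i, i < n → G.Adj (v i) (v (i + 1))
  lev : ∀ i, i ≤ n → f (v i) + i = f x

lemma exists_vert {f : W → ℕ} (hd : ∀ x ∈ C, ∃ x', G.Adj x x' ∧ f x' + 1 = f x) {x : W}
    (hx : x ∈ C) : ∃ n v, Vert G C f x n v := by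
  suffices h : ∀ k, ∀ x ∈ C, f x = k → ∃ n v, Vert G C f x n v from h _ x hx rfl
  intro k
  induction k using Nat.strong_induction_on with
  | _ k ih =>
    intro x hx hk
    obtain ⟨x', hxx', hf⟩ := hd x hx
    by_cases hx' : x' ∈ C
    · obtain ⟨n, v, hv⟩ := ih (f x') (by omega) x' hx' rfl
      refine ⟨n + 1, fun i => if i = 0 then x else v (i - 1), ?_, ?_, ?_, ?_, ?_, ?_⟩
      · omega
      · simp
      · intro i hi
        by_cases h0 : i = 0
        · simpa [h0] using hx
        · simp only [h0, if_false]; exact hv.mem _ (by omega)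
      · simp only [Nat.add_eq_zero_iff, one_ne_zero, and_false, if_false, Nat.add_sub_cancel]
        exact hv.out
      · intro i hi
        by_cases h0 : i = 0
        · subst h0
          simp only [if_true, zero_add, one_ne_zero, if_false, Nat.sub_self, hv.zero]
          exact hxx'
        · simp only [h0, if_false, Nat.add_eq_zero_iff, one_ne_zero, and_false, Nat.add_sub_cancel]
          have := hv.adj (i - 1) (by omega)
          rwa [show i - 1 + 1 = i by omega] at this
      · intro i hi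
        by_cases h0 : i = 0
        · simp [h0]
        · simp only [h0, if_false]
          have := hv.lev (i - 1) (by omega)
          omega
    · refine ⟨1, fun i => if i = 0 then x else x', by omega, by simp, ?_, by simpa using hx', ?_, ?_⟩
      · intro i hi
        have : i = 0 := by omega
        simpa [this] using hx
      · intro i hi
        have : i = 0 := by omega
        simpa [this] using hxx'
      · intro i hi
        by_cases h0 : i = 0
        · simp [h0]
        · simp only [h0, if_false]; omega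

/-- the range of an interval under a function with adjacent consecutive values is connected -/
lemma conn_path {v : ℕ → W} {a n : ℕ} (han : a < n) (h : ∀ i, a ≤ i → i + 1 < n → G.Adj (v i) (v (i + 1))) :
    Conn G (v '' {i | a ≤ i ∧ i < n}) := by
  refine ⟨⟨v a, a, ⟨le_rfl, han⟩, rfl⟩, ?_⟩
  rintro T ⟨_, ⟨i, ⟨hai, hin⟩, rfl⟩, hiT⟩ hT
  have hmem : ∀ j, a ≤ j → j < n → v j ∈ v '' {i | a ≤ i ∧ i < n} := fun j h1 h2 => ⟨j, ⟨h1, h2⟩, rfl⟩
  have up : ∀ k, i + k < n → v (i + k) ∈ T := by
    intro k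
    induction k with
    | zero => intro _; exact hiT
    | succ k ih =>
      intro hk
      exact hT _ (hmem _ (by omega) (by omega)) (ih (by omega)) _ (hmem _ (by omega) hk)
        (h (i + k) (by omega) (by omega))
  have down : ∀ k, k ≤ i - a → v (i - k) ∈ T := by
    intro k
    induction k with
    | zero => intro _; exact hiT
    | succ k ih =>
      intro hk
      refine hT _ (hmem (i - k) (by omega) (by omega)) (ih (by omega)) _
        (hmem (i - (k + 1)) (by omega) (by omega)) ?_
      have := h (i - (k + 1)) (by omega) (by omega)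
      rw [show i - (k + 1) + 1 = i - k by omega] at this
      exact this.symm
  rintro _ ⟨j, ⟨haj, hjn⟩, rfl⟩
  by_cases hij : i ≤ j
  · have := up (j - i) (by omega)
    rwa [show i + (j - i) = j by omega] at this
  · have := down (i - j) (by omega)
    rwa [show i - (i - j) = j by omega] at this

end

/-- zigzag folding onto `{0, …, L}` -/
def fold (L x : ℕ) : ℕ := if x % (2 * L) ≤ L then x % (2 * L) else 2 * L - x % (2 * L)

lemma fold_le {L : ℕ} (x : ℕ) : fold L x ≤ L := by
  unfold fold; split_ifs <;> omega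

lemma fold_of_le {L x : ℕ} (hL : 0 < L) (h : x ≤ L) : fold L x = x := by
  unfold fold
  have : x % (2 * L) = x := Nat.mod_eq_of_lt (by omega)
  rw [this, if_pos h]

lemma fold_succ {L : ℕ} (hL : 0 < L) (x : ℕ) : fold L (x + 1) ≤ fold L x + 1 ∧
    fold L x ≤ fold L (x + 1) + 1 := by
  have h1 : x % (2 * L) < 2 * L := Nat.mod_lt _ (by omega)
  have h2 : (x + 1) % (2 * L) = if x % (2 * L) + 1 = 2 * L then 0 else x % (2 * L) + 1 := by
    rw [Nat.add_mod]
    by_cases hL1 : 2 * L = 1
    · omega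
    · rw [Nat.mod_eq_of_lt (show 1 < 2 * L by omega)]
      split_ifs with h
      · rw [h, Nat.mod_self]
      · exact Nat.mod_eq_of_lt (by omega)
  unfold fold
  rw [h2]
  split_ifs <;> omega

lemma fold_lip {L : ℕ} (hL : 0 < L) {x y : ℕ} (h : x ≤ y + 1) (h' : y ≤ x + 1) :
    fold L x ≤ fold L y + 1 := by
  rcases (by omega : x = y ∨ x = y + 1 ∨ y = x + 1) with rfl | rfl | rfl
  · omega
  · exact (fold_succ hL y).1
  · exact (fold_succ hL x).2

/-- preimages of a level under folding, in a bounded range -/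
lemma fold_preimage {L T n x : ℕ} (hL : 0 < L) (hx : x ≤ T) (h : fold L x = n) :
    (∃ i, i ≤ T / (2 * L) ∧ (x = 2 * L * i + n ∨ x + n = 2 * L * i + 2 * L)) := by
  refine ⟨x / (2 * L), Nat.div_le_div_right hx, ?_⟩
  have h1 := Nat.div_add_mod x (2 * L)
  unfold fold at h
  split_ifs at h with h2
  · left; omega
  · right
    have : x % (2 * L) < 2 * L := Nat.mod_lt _ (by omega)
    omega

lemma fold_count {W : Type} [Finite W] {X : Set W} {f : W → ℕ} {L T c q : ℕ} (hL : 0 < L)
    (hT : T / (2 * L) < q)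
    (h1 : ∀ x ∈ X, f x ≤ T) (h2 : ∀ s, Set.ncard {x | x ∈ X ∧ f x = s} ≤ c) (n : ℕ) :
    Set.ncard {x | x ∈ X ∧ fold L (f x) = n} ≤ 2 * q * c := by
  classical
  have hsub : {x | x ∈ X ∧ fold L (f x) = n} ⊆
      ⋃ i ∈ Finset.range q, ({x | x ∈ X ∧ f x = 2 * L * i + n} ∪
        {x | x ∈ X ∧ f x = 2 * L * i + 2 * L - n}) := by
    rintro x ⟨hx, hfx⟩
    obtain ⟨i, hi, h⟩ := fold_preimage hL (h1 x hx) hfx
    simp only [Set.mem_iUnion, Finset.mem_range]
    refine ⟨i, by omega, ?_⟩
    rcases h with h | h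
    · exact Or.inl ⟨hx, h⟩
    · exact Or.inr ⟨hx, by omega⟩
  calc Set.ncard {x | x ∈ X ∧ fold L (f x) = n}
      ≤ Set.ncard (⋃ i ∈ Finset.range q, ({x | x ∈ X ∧ f x = 2 * L * i + n} ∪
        {x | x ∈ X ∧ f x = 2 * L * i + 2 * L - n})) := Set.ncard_le_ncard hsub (Set.toFinite _)
    _ ≤ ∑ i ∈ Finset.range q, Set.ncard ({x | x ∈ X ∧ f x = 2 * L * i + n} ∪
        {x | x ∈ X ∧ f x = 2 * L * i + 2 * L - n}) := Finset.set_ncard_biUnion_le _ _
    _ ≤ ∑ i ∈ Finset.range q, 2 * c := by
        refine Finset.sum_le_sum fun i _ => ?_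
        have := Set.ncard_union_le {x | x ∈ X ∧ f x = 2 * L * i + n}
          {x | x ∈ X ∧ f x = 2 * L * i + 2 * L - n}
        have := h2 (2 * L * i + n)
        have := h2 (2 * L * i + 2 * L - n)
        omega
    _ = 2 * q * c := by rw [Finset.sum_const, Finset.card_range, smul_eq_mul]; ring

end PS
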