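import Pool.Agent.Lib_helper70.PS.Side

set_option autoImplicit false

/-!
The cut darts of a finite connected set with connected complement form one cycle.
-/

namespace PS

open Classical in
/-- next cut dart (turn around the left face) -/
noncomputable def nxt (P : Set (ℤ × ℤ)) (d : Dart) : Dart :=
  if d.1 + dir (d.2 + 1) ∈ P then (d.1 + dir (d.2 + 1), d.2 - 1) else (d.1, d.2 + 1)

open Classical in
/-- previous cut dart -/
noncomputable def prv (P : Set (ℤ × ℤ)) (d : Dart) : Dart :=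
  if d.1 + dir (d.2 - 1) ∈ P then (d.1 + dir (d.2 - 1), d.2 + 1) else (d.1, d.2 - 1)

/-- cut darts of a set of lattice points -/
def IsCut (P : Set (ℤ × ℤ)) (d : Dart) : Prop := d.1 ∈ P ∧ tip d ∉ P

lemma nxt_of_mem {P : Set (ℤ × ℤ)} {d : Dart} (h : d.1 + dir (d.2 + 1) ∈ P) :
    nxt P d = (d.1 + dir (d.2 + 1), d.2 - 1) := if_pos h

lemma nxt_of_not_mem {P : Set (ℤ × ℤ)} {d : Dart} (h : d.1 + dir (d.2 + 1) ∉ P) :
    nxt P d = (d.1, d.2 + 1) := if_neg h

lemma prv_of_mem {P : Set (ℤ × ℤ)} {d : Dart} (h : d.1 + dir (d.2 - 1) ∈ P) :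
    prv P d = (d.1 + dir (d.2 - 1), d.2 + 1) := if_pos h

lemma prv_of_not_mem {P : Set (ℤ × ℤ)} {d : Dart} (h : d.1 + dir (d.2 - 1) ∉ P) :
    prv P d = (d.1, d.2 - 1) := if_neg h

lemma dir_pred_succ (j : Fin 6) : dir (j - 1) + dir (j + 1) = dir j := by revert j; decide

/-- in case the third vertex of the left face is inside, the end point does not change -/
lemma tip_nxt_of_mem {P : Set (ℤ × ℤ)} {d : Dart} (h : d.1 + dir (d.2 + 1) ∈ P) :
    tip (nxt P d) = tip d := by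
  rw [nxt_of_mem h]
  simp only [tip]
  rw [add_assoc, dir_succ_pred]

lemma tip_nxt_of_not_mem {P : Set (ℤ × ℤ)} {d : Dart} (h : d.1 + dir (d.2 + 1) ∉ P) :
    tip (nxt P d) = d.1 + dir (d.2 + 1) := by
  rw [nxt_of_not_mem h]; rfl

lemma nxt_cut {P : Set (ℤ × ℤ)} {d : Dart} (h : IsCut P d) : IsCut P (nxt P d) := by
  by_cases h1 : d.1 + dir (d.2 + 1) ∈ P
  · refine ⟨?_, ?_⟩
    · rw [nxt_of_mem h1]; exact h1
    · rw [tip_nxt_of_mem h1]; exact h.2
  · refine ⟨?_, ?_⟩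
    · rw [nxt_of_not_mem h1]; exact h.1
    · rw [tip_nxt_of_not_mem h1]; exact h1

lemma tip_prv_of_mem {P : Set (ℤ × ℤ)} {d : Dart} (h : d.1 + dir (d.2 - 1) ∈ P) :
    tip (prv P d) = tip d := by
  rw [prv_of_mem h]
  simp only [tip]
  rw [add_assoc, dir_pred_succ]

lemma prv_cut {P : Set (ℤ × ℤ)} {d : Dart} (h : IsCut P d) : IsCut P (prv P d) := by
  by_cases h1 : d.1 + dir (d.2 - 1) ∈ P
  · refine ⟨?_, ?_⟩
    · rw [prv_of_mem h1]; exact h1
    · rw [tip_prv_of_mem h1]; exact h.2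
  · refine ⟨?_, ?_⟩
    · rw [prv_of_not_mem h1]; exact h.1
    · rw [prv_of_not_mem h1]; exact h1

lemma prv_nxt {P : Set (ℤ × ℤ)} {d : Dart} (h : IsCut P d) : prv P (nxt P d) = d := by
  have e1 : ∀ j : Fin 6, dir (j + 1) + dir (j - 1 - 1) = 0 := by decide
  have e2 : ∀ j : Fin 6, j - 1 + 1 = j := by decide
  have e3 : ∀ j : Fin 6, j + 1 - 1 = j := by decide
  by_cases h1 : d.1 + dir (d.2 + 1) ∈ P
  · rw [nxt_of_mem h1]
    have h2 : d.1 + dir (d.2 + 1) + dir (d.2 - 1 - 1) = d.1 := by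
      rw [add_assoc, e1, add_zero]
    rw [prv_of_mem (by show d.1 + dir (d.2 + 1) + dir (d.2 - 1 - 1) ∈ P; rw [h2]; exact h.1)]
    refine Prod.ext h2 (e2 _)
  · rw [nxt_of_not_mem h1]
    have h2 : d.1 + dir (d.2 + 1 - 1) = tip d := by rw [e3]; rfl
    rw [prv_of_not_mem (by show d.1 + dir (d.2 + 1 - 1) ∉ P; rw [h2]; exact h.2)]
    exact Prod.ext rfl (e3 _)

lemma nxt_prv {P : Set (ℤ × ℤ)} {d : Dart} (h : IsCut P d) : nxt P (prv P d) = d := by
  have e1 : ∀ j : Fin 6, dir (j - 1) + dir (j + 1 + 1) = 0 := by decide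
  have e2 : ∀ j : Fin 6, j + 1 - 1 = j := by decide
  have e3 : ∀ j : Fin 6, j - 1 + 1 = j := by decide
  by_cases h1 : d.1 + dir (d.2 - 1) ∈ P
  · rw [prv_of_mem h1]
    have h2 : d.1 + dir (d.2 - 1) + dir (d.2 + 1 + 1) = d.1 := by
      rw [add_assoc, e1, add_zero]
    rw [nxt_of_mem (by show d.1 + dir (d.2 - 1) + dir (d.2 + 1 + 1) ∈ P; rw [h2]; exact h.1)]
    refine Prod.ext h2 (e2 _)
  · rw [prv_of_not_mem h1]
    have h2 : d.1 + dir (d.2 - 1 + 1) = tip d := by rw [e3]; rfl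
    rw [nxt_of_not_mem (by show d.1 + dir (d.2 - 1 + 1) ∉ P; rw [h2]; exact h.2)]
    exact Prod.ext rfl (e3 _)

/-- rotate a dart around its left face -/
def rot (d : Dart) : Dart := (tip d, d.2 + 2)

lemma lf_rot (d : Dart) : lf (rot d) = lf d := by
  obtain ⟨⟨x, y⟩, j⟩ := d
  fin_cases j <;> simp [lf, rot, tip, dir] <;> omega

lemma rot_rot (d : Dart) : rot (rot d) = (d.1 + dir (d.2 + 1), d.2 + 4) := by
  have h : ∀ j : Fin 6, j + 2 + 2 = j + 4 := by decide
  refine Prod.ext ?_ (h _)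
  show d.1 + dir d.2 + dir (d.2 + 2) = _
  rw [add_assoc, dir_add_two]

lemma rf_nxt {P : Set (ℤ × ℤ)} (d : Dart) : rf (nxt P d) = lf d := by
  by_cases h1 : d.1 + dir (d.2 + 1) ∈ P
  · rw [nxt_of_mem h1]
    have h := rot_rot d
    have h4 : ∀ j : Fin 6, j - 1 - 1 = j + 4 := by decide
    show lf (d.1 + dir (d.2 + 1), d.2 - 1 - 1) = lf d
    rw [h4, ← h, lf_rot, lf_rot]
  · rw [nxt_of_not_mem h1]
    have e3 : ∀ j : Fin 6, j + 1 - 1 = j := by decide
    show lf (d.1, d.2 + 1 - 1) = lf d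
    rw [e3]

lemma cut_finite {P : Set (ℤ × ℤ)} (hfin : P.Finite) : {d : Dart | IsCut P d}.Finite :=
  (hfin.prod (Set.finite_univ (α := Fin 6))).subset fun d hd => ⟨hd.1, Set.mem_univ _⟩

/-- the permutation of the cut darts -/
noncomputable def sig (P : Set (ℤ × ℤ)) : Equiv.Perm {d : Dart // IsCut P d} where
  toFun d := ⟨nxt P d, nxt_cut d.2⟩
  invFun d := ⟨prv P d, prv_cut d.2⟩
  left_inv d := Subtype.ext (prv_nxt d.2)
  right_inv d := Subtype.ext (nxt_prv d.2)

lemma ee_cut {P : Set (ℤ × ℤ)} {x d : Dart} (hx : IsCut P x) (hd : IsCut P d) :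
    ee x d = ind (d = x) := by
  have : d ≠ rev x := fun h => hx.2 (by rw [← rev_fst, ← h]; exact hd.1)
  simp [ee, this]

theorem sig_sameCycle {P : Set (ℤ × ℤ)} (hfin : P.Finite) (h1 : (Lat.induce P).Preconnected)
    (h2 : (Lat.induce Pᶜ).Preconnected) (x y : {d : Dart // IsCut P d}) :
    (sig P).SameCycle x y := by
  classical
  by_contra hne
  have : Fintype {d : Dart // IsCut P d} := (cut_finite hfin).fintype
  obtain ⟨s, hs⟩ := exists_side P Pᶜ x.1 y.1 x.2.1 y.2.1 x.2.2 y.2.2 h1 h2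
  have hs' : ∀ d : {d : Dart // IsCut P d}, s (lf d.1) + s (rf d.1) =
      ind (d = x) + ind (d = y) := by
    intro d
    rw [hs d.1 (fun h => d.2.2 h.2) (fun h => h.1 d.2.1), ee_cut x.2 d.2, ee_cut y.2 d.2,
      Subtype.ext_iff, Subtype.ext_iff]
  set O : {d : Dart // IsCut P d} → Prop := fun d => (sig P).SameCycle x d with hO
  have hOs : ∀ d, O (sig P d) ↔ O d := fun d => Equiv.Perm.sameCycle_apply_right
  have hrf : ∀ d : {d : Dart // IsCut P d}, rf (sig P d).1 = lf d.1 := fun d => rf_nxt d.1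
  have e1 : ∑ d : {d : Dart // IsCut P d}, (if O d then s (rf d.1) else 0) =
      ∑ d : {d : Dart // IsCut P d}, (if O d then s (lf d.1) else 0) := by
    rw [← Equiv.sum_comp (sig P)]
    refine Finset.sum_congr rfl fun d _ => ?_
    rw [hrf]
    simp only [hOs]
  have e2 : ∑ d : {d : Dart // IsCut P d}, (if O d then s (lf d.1) + s (rf d.1) else 0) = 0 := by
    have : ∀ d : {d : Dart // IsCut P d}, (if O d then s (lf d.1) + s (rf d.1) else 0) =
        (if O d then s (lf d.1) else 0) + (if O d then s (rf d.1) else 0) := by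
      intro d; split_ifs <;> simp
    simp only [this]
    rw [Finset.sum_add_distrib, e1, add_self2]
  have e3 : ∑ d : {d : Dart // IsCut P d}, (if O d then s (lf d.1) + s (rf d.1) else 0) = 1 := by
    rw [Finset.sum_eq_single x]
    · rw [if_pos (Equiv.Perm.SameCycle.refl _ _), hs', ind_true rfl, ind_false, add_zero]
      rintro rfl
      exact hne (Equiv.Perm.SameCycle.refl _ _)
    · intro b _ hb
      split_ifs with hOb
      · rw [hs', ind_false hb, ind_false, add_zero]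
        rintro rfl
        exact hne hOb
      · rfl
    · intro h; exact absurd (Finset.mem_univ _) h
  rw [e2] at e3
  exact absurd e3 (by decide)

/-- cyclic enumeration of the cut darts -/
theorem exists_enum {P : Set (ℤ × ℤ)} (hfin : P.Finite) (h1 : (Lat.induce P).Preconnected)
    (h2 : (Lat.induce Pᶜ).Preconnected) (x : Dart) (hx : IsCut P x) :
    ∃ (m : ℕ) (δ : ℕ → Dart), 0 < m ∧ δ 0 = x ∧ (∀ i, IsCut P (δ i)) ∧
      (∀ i, δ (i + 1) = nxt P (δ i)) ∧ δ m = x ∧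
      (∀ i j, i < m → j < m → δ i = δ j → i = j) ∧ (∀ d, IsCut P d → ∃ i < m, δ i = d) := by
  classical
  have : Fintype {d : Dart // IsCut P d} := (cut_finite hfin).fintype
  have hc : (sig P).IsCycleOn ((Finset.univ : Finset {d : Dart // IsCut P d}) : Set _) := by
    refine ⟨?_, fun a _ b _ => sig_sameCycle hfin h1 h2 a b⟩
    rw [Finset.coe_univ, Set.bijOn_univ]
    exact (sig P).bijective
  set x' : {d : Dart // IsCut P d} := ⟨x, hx⟩
  refine ⟨(Finset.univ : Finset {d : Dart // IsCut P d}).card,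
    fun i => (((sig P) ^ i) x').1, Finset.card_pos.2 ⟨x', Finset.mem_univ _⟩, rfl,
    fun i => (((sig P) ^ i) x').2, fun i => ?_, ?_, fun i j hi hj hij => ?_, fun d hd => ?_⟩
  · show (((sig P) ^ (i + 1)) x').1 = _
    rw [pow_succ', Equiv.Perm.mul_apply]; rfl
  · show (((sig P) ^ _) x').1 = _
    rw [hc.pow_card_apply (Finset.mem_univ _)]
  · have := (hc.pow_apply_eq_pow_apply (Finset.mem_univ x')).1 (Subtype.ext hij)
    exact Nat.ModEq.eq_of_lt_of_lt this hi hj
  · obtain ⟨n, hn, h⟩ := hc.exists_pow_eq (Finset.mem_univ x') (Finset.mem_univ ⟨d, hd⟩)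
    exact ⟨n, hn, congrArg Subtype.val h⟩

end PS
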