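import Pool.Agent.Lib_helper70.PS.Defs

set_option autoImplicit false

/-!
Side functions in the triangular lattice.
-/

namespace PS

/-- darts: a point together with a direction -/
abbrev Dart := (ℤ × ℤ) × Fin 6

/-- end point of a dart -/
def tip (d : Dart) : ℤ × ℤ := d.1 + dir d.2

/-- reverse dart -/
def rev (d : Dart) : Dart := (tip d, d.2 + 3)

/-- left face of a dart, in strip coordinates -/
def lf (d : Dart) : ℤ × ℤ :=
  ![(2 * d.1.1 + 1, d.1.2), (2 * d.1.1, d.1.2), (2 * d.1.1 - 1, d.1.2), (2 * d.1.1, d.1.2 - 1),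
    (2 * d.1.1 + 1, d.1.2 - 1), (2 * d.1.1 + 2, d.1.2 - 1)] d.2

/-- right face of a dart -/
def rf (d : Dart) : ℤ × ℤ := lf (d.1, d.2 - 1)

lemma dir_add_three (j : Fin 6) : dir j + dir (j + 3) = 0 := by revert j; decide

lemma dir_succ_pred (j : Fin 6) : dir (j + 1) + dir (j - 1) = dir j := by revert j; decide

lemma dir_add_two (j : Fin 6) : dir j + dir (j + 2) = dir (j + 1) := by revert j; decide

lemma dir_ne_zero (j : Fin 6) : dir j ≠ 0 := by revert j; decide

lemma dir_injective : Function.Injective dir := by decide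

lemma tip_rev (d : Dart) : tip (rev d) = d.1 := by
  simp only [tip, rev]; rw [add_assoc, dir_add_three, add_zero]

lemma rev_fst (d : Dart) : (rev d).1 = tip d := rfl

lemma rev_rev (d : Dart) : rev (rev d) = d := by
  have h : ∀ j : Fin 6, j + 3 + 3 = j := by decide
  refine Prod.ext ?_ ?_
  · show tip (rev d) = d.1
    exact tip_rev d
  · exact h d.2

lemma rev_ne (d : Dart) : rev d ≠ d := by
  intro h
  have h1 : tip d = d.1 := congrArg Prod.fst h
  have : dir d.2 = 0 := by simpa [tip] using h1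
  exact dir_ne_zero _ this

open Classical in
/-- indicator of a proposition -/
noncomputable def ind (p : Prop) : ZMod 2 := if p then 1 else 0

lemma ind_true {p : Prop} (h : p) : ind p = 1 := if_pos h
lemma ind_false {p : Prop} (h : ¬ p) : ind p = 0 := if_neg h

/-- the horizontal ray function of a point, evaluated on darts -/
noncomputable def hh (a : ℤ × ℤ) (d : Dart) : ZMod 2 :=
  ![ind (d.1.2 = a.2 ∧ a.1 ≤ d.1.1), ind False, ind False,
    ind (d.1.2 = a.2 ∧ a.1 ≤ d.1.1 - 1), ind False, ind False] d.2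

/-- the elementary side function of a dart -/
noncomputable def gg (d : Dart) (φ : ℤ × ℤ) : ZMod 2 :=
  ![ind False, ind (φ.2 = d.1.2 ∧ 2 * d.1.1 + 1 ≤ φ.1),
    ind (φ.2 = d.1.2 ∧ 2 * d.1.1 ≤ φ.1), ind False,
    ind (φ.2 = d.1.2 - 1 ∧ 2 * d.1.1 + 1 ≤ φ.1),
    ind (φ.2 = d.1.2 - 1 ∧ 2 * d.1.1 + 2 ≤ φ.1)] d.2

/-- indicator of the edge of a dart -/
noncomputable def ee (st d : Dart) : ZMod 2 := ind (d = st ∨ d = rev st)

lemma parity5 {a b c d e : Prop}
    (h : ((a ∧ ¬ b) ∨ (¬ a ∧ b)) ↔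
      ((c ∧ ¬ d ∧ ¬ e) ∨ (¬ c ∧ d ∧ ¬ e) ∨ (¬ c ∧ ¬ d ∧ e) ∨ (c ∧ d ∧ e))) :
    ind a + ind b = ind c + ind d + ind e := by
  by_cases ha : a <;> by_cases hb : b <;> by_cases hc : c <;> by_cases hd : d <;>
    by_cases he : e <;> simp only [ind, ha, hb, hc, hd, he, if_true, if_false] <;>
    first
      | rfl
      | (exfalso; simp only [ha, hb, hc, hd, he] at h; tauto)

lemma gg_flip (st d : Dart) :
    gg st (lf d) + gg st (rf d) = ee st d + hh st.1 d + hh (tip st) d := by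
  obtain ⟨⟨x, y⟩, j⟩ := st
  obtain ⟨⟨u, v⟩, i⟩ := d
  fin_cases j <;> fin_cases i <;>
    simp only [gg, lf, rf, ee, hh, tip, rev, dir, Prod.ext_iff, Fin.isValue, Fin.zero_eta,
      Fin.mk_one, Fin.reduceFinMk, Matrix.cons_val, Fin.reduceSub, Fin.reduceAdd, Fin.reduceEq,
      Prod.fst_add, Prod.snd_add, zero_sub, zero_add, and_true, and_false, or_false, false_or] <;>
    refine parity5 ?_ <;>
    simp only [and_false, false_and, or_false, false_or, not_false_eq_true, and_true, true_and,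
      iff_false, false_iff] <;> omega

lemma add_self2 (a : ZMod 2) : a + a = 0 := CharTwo.add_self_eq_zero a

/-- a side function along a walk inside a set -/
lemma exists_chain (S : Set (ℤ × ℤ)) (u v : S) (w : (Lat.induce S).Walk u v) :
    ∃ (s : ℤ × ℤ → ZMod 2) (z : Dart → ZMod 2),
      (∀ d, s (lf d) + s (rf d) = z d + hh u d + hh v d) ∧
      (∀ d, ¬ (d.1 ∈ S ∧ tip d ∈ S) → z d = 0) := by
  induction w with
  | nil =>
    refine ⟨fun _ => 0, fun _ => 0, fun d => ?_, fun _ _ => rfl⟩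
    simp [add_self2]
  | @cons a b c h p ih =>
    obtain ⟨s, z, hs, hz⟩ := ih
    obtain ⟨j, hj⟩ : ∃ j, (b : ℤ × ℤ) = a + dir j := h
    refine ⟨fun φ => s φ + gg (↑a, j) φ, fun d => z d + ee (↑a, j) d, fun d => ?_, fun d hd => ?_⟩
    · have h1 := hs d
      have h2 := gg_flip ((a : ℤ × ℤ), j) d
      have h3 : tip ((a : ℤ × ℤ), j) = b := hj.symm
      rw [h3] at h2
      have h4 := add_self2 (hh (↑b) d)
      linear_combination h1 + h2 + h4
    · have h1 := hz d hd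
      have h2 : ee ((a : ℤ × ℤ), j) d = 0 := by
        apply ind_false
        rintro (rfl | rfl)
        · exact hd ⟨a.2, by show (a : ℤ × ℤ) + dir j ∈ S; rw [← hj]; exact b.2⟩
        · refine hd ⟨?_, ?_⟩
          · show (a : ℤ × ℤ) + dir j ∈ S
            rw [← hj]; exact b.2
          · rw [tip_rev]; exact a.2
      show z d + _ = 0
      rw [h1, h2, add_zero]

/-- the side function of a closed walk made of two darts and walks in two connected sets -/
lemma exists_side (S₁ S₂ : Set (ℤ × ℤ)) (δ δ' : Dart) (h1 : δ.1 ∈ S₁) (h1' : δ'.1 ∈ S₁)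
    (h2 : tip δ ∈ S₂) (h2' : tip δ' ∈ S₂)
    (hS₁ : (Lat.induce S₁).Preconnected) (hS₂ : (Lat.induce S₂).Preconnected) :
    ∃ s : ℤ × ℤ → ZMod 2, ∀ d, ¬ (d.1 ∈ S₁ ∧ tip d ∈ S₁) → ¬ (d.1 ∈ S₂ ∧ tip d ∈ S₂) →
      s (lf d) + s (rf d) = ee δ d + ee δ' d := by
  obtain ⟨w1⟩ := hS₁ ⟨δ.1, h1⟩ ⟨δ'.1, h1'⟩
  obtain ⟨w2⟩ := hS₂ ⟨tip δ, h2⟩ ⟨tip δ', h2'⟩
  obtain ⟨s1, z1, hs1, hz1⟩ := exists_chain _ _ _ w1
  obtain ⟨s2, z2, hs2, hz2⟩ := exists_chain _ _ _ w2
  refine ⟨fun φ => s1 φ + s2 φ + gg δ φ + gg δ' φ, fun d hd1 hd2 => ?_⟩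
  have e1 := hs1 d
  have e2 := hs2 d
  have e3 := gg_flip δ d
  have e4 := gg_flip δ' d
  rw [hz1 d hd1] at e1
  rw [hz2 d hd2] at e2
  have f1 := add_self2 (hh δ.1 d)
  have f2 := add_self2 (hh δ'.1 d)
  have f3 := add_self2 (hh (tip δ) d)
  have f4 := add_self2 (hh (tip δ') d)
  simp only at e1 e2
  linear_combination e1 + e2 + e3 + e4 + f1 + f2 + f3 + f4

end PS
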