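import Pool.Agent.Lib_helper70.PS.Deep
import Pool.Agent.Lib_helper96.PS.M5
import Pool.Agent.Lib_helper96.PS.M4b
import Pool.Agent.Lib_helper78.PS.M3

set_option autoImplicit false

/-!
The step lemma: in every region one can choose a connected part.
-/

namespace PS

section
variable {W : Type} {G : SimpleGraph W} {C : Set W} {f : W → ℕ}

/-- the vertices of a vertical path inside the region -/
def vset (v : ℕ → W) (n : ℕ) : Set W := v '' {i | i < n}

lemma Vert.conn {x : W} {n : ℕ} {v : ℕ → W} (hv : Vert G C f x n v) : Conn G (vset v n) := by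
  have := conn_path (G := G) (v := v) (a := 0) (n := n) hv.pos (fun i _ hi => hv.adj i (by omega))
  have h : {i | 0 ≤ i ∧ i < n} = {i | i < n} := by ext i; simp
  rw [h] at this
  exact this

lemma Vert.sub {x : W} {n : ℕ} {v : ℕ → W} (hv : Vert G C f x n v) : vset v n ⊆ C := by
  rintro _ ⟨i, hi, rfl⟩
  exact hv.mem i hi

lemma Vert.start {x : W} {n : ℕ} {v : ℕ → W} (hv : Vert G C f x n v) : x ∈ vset v n :=
  ⟨0, hv.pos, hv.zero⟩

lemma Vert.foot {x : W} {n : ℕ} {v : ℕ → W} (hv : Vert G C f x n v) : v (n - 1) ∈ vset v n :=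
  ⟨n - 1, by have := hv.pos; show n - 1 < n; omega, rfl⟩

lemma Vert.le {x : W} {n : ℕ} {v : ℕ → W} (hv : Vert G C f x n v) : ∀ z ∈ vset v n, f z ≤ f x := by
  rintro _ ⟨i, hi, rfl⟩
  have hi' : i < n := hi
  have := hv.lev i (by omega)
  omega

lemma Vert.count {x : W} {n : ℕ} {v : ℕ → W} (hv : Vert G C f x n v) (s : ℕ) :
    Set.ncard {z | z ∈ vset v n ∧ f z = s} ≤ 1 := by
  have hfin : {z | z ∈ vset v n ∧ f z = s}.Finite := by
    refine Set.Finite.subset ((Set.finite_lt_nat n).image v) ?_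
    rintro y ⟨hy, -⟩
    exact hy
  rw [Set.ncard_le_one_iff_eq hfin]
  · rcases Set.eq_empty_or_nonempty {z | z ∈ vset v n ∧ f z = s} with h | ⟨z, hz, hzs⟩
    · exact Or.inl h
    · right
      refine ⟨z, ?_⟩
      ext y
      simp only [Set.mem_ofPred_eq, Set.mem_singleton_iff]
      constructor
      · rintro ⟨⟨i, hi, rfl⟩, his⟩
        obtain ⟨j, hj, rfl⟩ := hz
        have hi' : i < n := hi
        have hj' : j < n := hj
        have h1 := hv.lev i (by omega)
        have h2 := hv.lev j (by omega)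
        have : i = j := by omega
        rw [this]
      · rintro rfl
        exact ⟨hz, hzs⟩

end

variable {W : Type} {π : ℤ × ℤ → W} {o : W}

theorem stepHyp [Fintype W] (hM : Model π o) {F : Set W}
    (hF : ∀ p ∈ F, ∀ q ∈ F, ¬ (Quo π).Adj p q) (hG : Conn (Quo π) Fᶜ) {k : ℕ}
    (hsep : SepHyp ((Quo π).induce Fᶜ) k) : StepHyp π o (k + 2) 48 := by
  classical
  intro C ho hC hCc lab hgood μ hμ hlip
  rw [conn_iff] at hC hCc
  have hΓ := quo_connected hM
  have hne : ∃ y, y ∉ C := ⟨o, ho⟩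
  set f := lam (Quo π) C μ with hfdef
  have hf : Lip (Quo π) f := lam_lip hΓ hne
  have hfoff : ∀ x, x ∉ C → f x = μ x := fun x hx => lam_off hΓ hlip hx
  have hoff : ∀ x, x ∉ C → f x ≤ k + 1 := by
    intro x hx
    rw [hfoff x hx]
    have := hμ x
    omega
  have hd : ∀ x ∈ C, ∃ x', (Quo π).Adj x x' ∧ f x' + 1 = f x := fun x hx => lam_desc hΓ hne hx
  have hvert : ∀ x : W, ∃ (n : ℕ) (v : ℕ → W), x ∈ C → Vert (Quo π) C f x n v := by
    intro x
    by_cases hx : x ∈ C
    · obtain ⟨n, v, h⟩ := exists_vert hd hx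
      exact ⟨n, v, fun _ => h⟩
    · exact ⟨0, fun _ => x, fun h => absurd h hx⟩
  choose n v hv using hvert
  obtain ⟨x, hx, x', hx', hxx', hmain⟩ := step_planar' hM ho hC hCc hgood
    (y := fun x => v x (n x - 1)) (by
      intro x hx
      have h1 := (hv x hx).pos
      refine ⟨(hv x hx).mem _ (by omega), v x (n x), (hv x hx).out, ?_⟩
      have := (hv x hx).adj (n x - 1) (by omega)
      rwa [show n x - 1 + 1 = n x by omega] at this)
  have core : ∃ (X : Set W) (f' : W → ℕ), X ⊆ C ∧ Conn (Quo π) X ∧ v x (n x - 1) ∈ X ∧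
      v x' (n x' - 1) ∈ X ∧ (x = x' → x ∈ X) ∧ Lip (Quo π) f' ∧ (∀ z, z ∉ C → f' z = f z) ∧
      (∀ z ∈ X, f' z ≤ 7 * k + 10) ∧ ∀ s, Set.ncard {z | z ∈ X ∧ f' z = s} ≤ 4 := by
    have hvx := hv x hx
    have hvx' := hv x' hx'
    rcases hxx' with ⟨rfl, z, hz, hxz⟩ | hadj
    · refine ⟨vset (v x) (n x), f, hvx.sub, hvx.conn, hvx.foot, hvx.foot, fun _ => hvx.start, hf,
        fun _ _ => rfl, ?_, fun s => (hvx.count s).trans (by norm_num)⟩
      intro y hy
      have h1 := hvx.le y hy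
      have h2 := hf x z hxz
      have h3 := hoff z hz
      omega
    · have hdiff : f x ≤ f x' + 1 := hf x x' hadj
      have hdiff' : f x' ≤ f x + 1 := hf x' x hadj.symm
      by_cases hdeep : 7 * k + 8 < f x ∧ 7 * k + 8 < f x'
      · obtain ⟨a, a', ha, ha', h1, h2, h3, h4, h5⟩ :=
          deep hM hF hG hsep hCc hf hd hoff hadj hdeep.1 hdeep.2 hvx hvx'
        obtain ⟨X, f', e1, e2, e3, e4, e5, e6, e7, e8⟩ :=
          hub hΓ k hf hoff hvx hvx' ha ha' h1 h2 h4 h5
        exact ⟨X, f', e1, e2, e3, e4, fun h => absurd h hadj.ne, e5, e6,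
          fun z hz => (e7 z hz).trans (by omega), e8⟩
      · refine ⟨vset (v x) (n x) ∪ vset (v x') (n x'), f, Set.union_subset hvx.sub hvx'.sub,
          hvx.conn.union hvx'.conn ⟨x, hvx.start, x', hvx'.start, Or.inr hadj⟩,
          Or.inl hvx.foot, Or.inr hvx'.foot, fun _ => Or.inl hvx.start, hf, fun _ _ => rfl, ?_, ?_⟩
        · rintro y (hy | hy)
          · have := hvx.le y hy
            omega
          · have := hvx'.le y hy
            omega
        · intro s
          have hsub : {z | z ∈ vset (v x) (n x) ∪ vset (v x') (n x') ∧ f z = s} ⊆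
              {z | z ∈ vset (v x) (n x) ∧ f z = s} ∪ {z | z ∈ vset (v x') (n x') ∧ f z = s} := by
            rintro z ⟨hz | hz, hs⟩
            · exact Or.inl ⟨hz, hs⟩
            · exact Or.inr ⟨hz, hs⟩
          have h1 := Set.ncard_le_ncard hsub (Set.toFinite _)
          have h2 := Set.ncard_union_le {z | z ∈ vset (v x) (n x) ∧ f z = s}
            {z | z ∈ vset (v x') (n x') ∧ f z = s}
          have h3 := hvx.count s
          have h4 := hvx'.count s
          omega
  obtain ⟨X, f', hXC, hX, hyX, hyX', hxX, hf', hf'off, hf'X, hcount⟩ := core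
  have hk : 0 < k + 1 := by omega
  refine ⟨X, fun z => fold (k + 1) (f' z), hXC, conn_iff.2 hX, ?_, ?_, ?_, ?_, ?_, ?_⟩
  · refine ⟨_, hyX, v x (n x), (hv x hx).out, ?_⟩
    have h1 := (hv x hx).pos
    have := (hv x hx).adj (n x - 1) (by omega)
    rwa [show n x - 1 + 1 = n x by omega] at this
  · intro z
    have := fold_le (L := k + 1) (f' z)
    show fold (k + 1) (f' z) < k + 2
    omega
  · intro y z hyz
    exact fold_lip hk (hf' y z hyz) (hf' z y hyz.symm)
  · intro z hz
    show fold (k + 1) (f' z) = μ z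
    rw [hf'off z hz, hfoff z hz]
    exact fold_of_le hk (by have := hμ z; omega)
  · intro s
    refine (fold_count (q := 6) hk ?_ hf'X hcount s).trans (by norm_num)
    rw [Nat.div_lt_iff_lt_mul (by omega)]
    omega
  · intro C' hC'C hdis hC' hcl lab' hl1 hl2
    exact hmain X hXC hX hyX hyX' hxX C' hC'C hdis (conn_iff.1 hC') hcl lab' hl1 hl2

theorem cert_of_model [Fintype W] (hM : Model π o) (F : Set W)
    (hF : ∀ p ∈ F, ∀ q ∈ F, ¬ (Quo π).Adj p q)
    (hG : ((Quo π).induce Fᶜ).Connected) (k : ℕ) (hk : HasTW ((Quo π).induce Fᶜ) k) :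
    Cert (Quo π) (k + 2) 48 4 := by
  classical
  refine M5.cert_of_step hM (by omega) (by norm_num) (stepHyp hM hF (conn_iff.1 hG) ?_) ?_
  · intro S hS hdis
    exact separator_of_tw _ k hk S hS hdis
  · intro C ho hC hCc lab hgood
    exact visible_le' hM ho (conn_iff.1 hC) (conn_iff.1 hCc) hgood

end PS
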