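import Pool.Agent.Lib_helper70.PS.Hex

set_option autoImplicit false

/-!
The planar step: splitting a region keeps the number of label changes at most four.
-/

namespace PS

/-- the darts at which the label changes -/
def chs {W ι : Type} (π : ℤ × ℤ → W) (lab : W → ι) (C : Set W) : Set Dart :=
  {d : (ℤ × ℤ) × Fin 6 | π d.1 ∈ C ∧ π (d.1 + dir d.2) ∉ C ∧
    π (d.1 + dir (d.2 + 1)) ∉ C ∧ lab (π (d.1 + dir d.2)) ≠ lab (π (d.1 + dir (d.2 + 1)))}

lemma chg_def {W ι : Type} (π : ℤ × ℤ → W) (lab : W → ι) (C : Set W) :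
    chg π lab C = (chs π lab C).ncard := rfl

open Classical in
/-- indicator of a label change at position `i` -/
noncomputable def cc {W ι : Type} (π : ℤ × ℤ → W) (lab : W → ι) (δ : ℕ → Dart) (i : ℕ) : ℕ :=
  if lab (π (tip (δ i))) ≠ lab (π (tip (δ (i + 1)))) then 1 else 0

/-- number of label changes before position `n` -/
noncomputable def RR {W ι : Type} (π : ℤ × ℤ → W) (lab : W → ι) (δ : ℕ → Dart) (n : ℕ) : ℕ :=
  ∑ i ∈ Finset.range n, cc π lab δ i

section
variable {W ι : Type} {π : ℤ × ℤ → W} {lab : W → ι} {C : Set W} {m : ℕ} {δ : ℕ → Dart}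

lemma cc_le (i : ℕ) : cc π lab δ i ≤ 1 := by unfold cc; split_ifs <;> omega

lemma RR_succ (n : ℕ) : RR π lab δ (n + 1) = RR π lab δ n + cc π lab δ n :=
  Finset.sum_range_succ _ _

lemma RR_zero : RR π lab δ 0 = 0 := rfl

lemma RR_mono {a b : ℕ} (h : a ≤ b) : RR π lab δ a ≤ RR π lab δ b := by
  induction b, h using Nat.le_induction with
  | base => exact le_rfl
  | succ n _ ih => rw [RR_succ]; omega

lemma RR_shift (p n : ℕ) :
    RR π lab δ (p + n) = RR π lab δ p + RR π lab (fun i => δ (p + i)) n := by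
  unfold RR
  rw [Finset.sum_range_add]
  rfl

lemma cc_iff (h : Enum (π ⁻¹' C) m δ) (i : ℕ) : cc π lab δ i = 1 ↔ δ i ∈ chs π lab C := by
  have hd := h.cut i
  by_cases h1 : (δ i).1 + dir ((δ i).2 + 1) ∈ π ⁻¹' C
  · have h2 : tip (δ (i + 1)) = tip (δ i) := by rw [h.step, tip_nxt_of_mem h1]
    constructor
    · intro h'
      unfold cc at h'
      rw [h2] at h'
      simp at h'
    · intro h'
      exact absurd h1 h'.2.2.1
  · have h2 : tip (δ (i + 1)) = (δ i).1 + dir ((δ i).2 + 1) := by
      rw [h.step, tip_nxt_of_not_mem h1]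
    unfold cc
    rw [h2]
    constructor
    · intro h'
      refine ⟨hd.1, hd.2, h1, ?_⟩
      by_contra h3
      rw [if_neg (by rw [not_not]; exact h3)] at h'
      omega
    · intro h'
      exact if_pos h'.2.2.2

lemma cc_zero_of_not (h : Enum (π ⁻¹' C) m δ) {i : ℕ} (h' : δ i ∉ chs π lab C) :
    cc π lab δ i = 0 := by
  have := cc_le (π := π) (lab := lab) (δ := δ) i
  have h2 := (cc_iff (lab := lab) h i).not.2 h'
  omega

lemma chs_eq_image (h : Enum (π ⁻¹' C) m δ) :
    chs π lab C = δ '' {i | i < m ∧ cc π lab δ i = 1} := by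
  ext d
  constructor
  · intro hd
    obtain ⟨i, hi, rfl⟩ := h.all d ⟨hd.1, hd.2.1⟩
    exact ⟨i, ⟨hi, (cc_iff h i).2 hd⟩, rfl⟩
  · rintro ⟨i, ⟨_, hi⟩, rfl⟩
    exact (cc_iff h i).1 hi

lemma sum_cc (s e : ℕ) : ({i | s ≤ i ∧ i < e ∧ cc π lab δ i = 1} : Set ℕ).ncard =
    ∑ i ∈ Finset.Ico s e, cc π lab δ i := by
  classical
  have : ({i | s ≤ i ∧ i < e ∧ cc π lab δ i = 1} : Set ℕ) =
      ((Finset.Ico s e).filter (fun i => cc π lab δ i = 1) : Finset ℕ) := by
    ext i; simp [and_assoc]
  rw [this, Set.ncard_coe_finset, Finset.card_filter]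
  refine Finset.sum_congr rfl fun i _ => ?_
  have := cc_le (π := π) (lab := lab) (δ := δ) i
  split_ifs with h
  · exact h.symm
  · omega

lemma chg_eq_RR (h : Enum (π ⁻¹' C) m δ) : chg π lab C = RR π lab δ m := by
  rw [chg_def, chs_eq_image h, Set.InjOn.ncard_image]
  · have := sum_cc (π := π) (lab := lab) (δ := δ) 0 m
    simp only [Nat.zero_le, true_and] at this
    rw [this, RR, Finset.range_eq_Ico]
  · rintro i ⟨hi, _⟩ j ⟨hj, _⟩ hij
    exact h.inj i j hi hj hij

lemma RR_sub (s e : ℕ) (h : s ≤ e) :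
    ({i | s ≤ i ∧ i < e ∧ cc π lab δ i = 1} : Set ℕ).ncard + RR π lab δ s = RR π lab δ e := by
  rw [sum_cc, RR, RR, add_comm, Finset.range_eq_Ico, Finset.sum_Ico_consecutive _ (Nat.zero_le _) h,
    Finset.range_eq_Ico]

end

section
variable {W ι : Type} {π : ℤ × ℤ → W} {o : W}

/-- the rest of the region is connected -/
lemma rest_conn {C C' X : Set W} (hC : Conn (Quo π) C) (hX : Conn (Quo π) X) (hXC : X ⊆ C)
    (hdis : Disjoint C' X)
    (hcl : ∀ c ∈ C', ∀ q, (Quo π).Adj c q → q ∈ C' ∨ q ∈ X ∨ q ∉ C) :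
    Conn (Quo π) (C \ C') := by
  have hXd : X ⊆ C \ C' := fun x hx => ⟨hXC hx, fun h => Set.disjoint_left.1 hdis h hx⟩
  have step1 : ∀ T : Set W, (∃ a ∈ C \ C', a ∈ T) →
      (∀ x ∈ C \ C', x ∈ T → ∀ y ∈ C \ C', (Quo π).Adj x y → y ∈ T) → ∃ x ∈ X, x ∈ T := by
    rintro T ⟨a, ha, haT⟩ hT
    by_contra hno
    push Not at hno
    have : C ⊆ T ∩ (C \ C') := by
      refine hC.2 _ ⟨a, ha.1, haT, ha⟩ ?_
      rintro x hxC ⟨hxT, hx⟩ y hy hxy
      have hy' : y ∉ C' := by
        intro hyC'
        rcases hcl y hyC' x hxy.symm with h | h | h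
        · exact hx.2 h
        · exact hno x h hxT
        · exact h hxC
      exact ⟨hT x hx hxT y ⟨hy, hy'⟩ hxy, hy, hy'⟩
    obtain ⟨x, hx⟩ := hX.1
    exact hno x hx (this (hXC hx)).1
  refine ⟨hX.1.mono hXd, ?_⟩
  intro T hT0 hT
  obtain ⟨x, hxX, hxT⟩ := step1 T hT0 hT
  have hXT : X ⊆ T := hX.2 T ⟨x, hxX, hxT⟩ fun u hu huT v hv huv =>
    hT u (hXd hu) huT v (hXd hv) huv
  intro z hz
  by_contra hzT
  obtain ⟨y, hyX, hyT⟩ := step1 Tᶜ ⟨z, hz, hzT⟩ fun u hu huT v hv huv hvT =>
    huT (hT v hv hvT u hu huv.symm)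
  exact hyT (hXT hyX)

/-- bound for a component from a bound on blocks -/
lemma comp_bound (hM : Model π o) {C : Set W} (hC : Conn (Quo π) C)
    (hCc : Conn (Quo π) Cᶜ) {lab : W → ι} {m : ℕ} {δ : ℕ → Dart} (h : Enum (π ⁻¹' C) m δ)
    {X C' : Set W} (hXC : X ⊆ C) (hX : Conn (Quo π) X) (hC'C : C' ⊆ C) (hdis : Disjoint C' X)
    (hC' : Conn (Quo π) C') (hcl : ∀ c ∈ C', ∀ q, (Quo π).Adj c q → q ∈ C' ∨ q ∈ X ∨ q ∉ C)
    {lab' : W → ι} (hlab : ∀ p, p ∉ C → lab' p = lab p)
    (hlabX : ∀ p ∈ X, ∀ q ∈ X, lab' p = lab' q) (h0 : π (δ 0).1 ∈ X)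
    (hb : ∀ s e, s ≤ e → e < m → (∀ i, s ≤ i → i ≤ e → π (δ i).1 ∈ C') →
      RR π lab δ e ≤ RR π lab δ s + 2) : chg π lab' C' ≤ 4 := by
  classical
  have hXn : ∀ x ∈ X, x ∉ C' := fun x hx h => Set.disjoint_left.1 hdis h hx
  have h0' : (δ 0).1 ∉ π ⁻¹' C' := hXn _ h0
  have hY : Conn Lat (π ⁻¹' C \ π ⁻¹' C') := by
    have := lift_conn hM (rest_conn hC hX hXC hdis hcl)
    rwa [Set.preimage_sdiff] at this
  have hPc : (Lat.induce (π ⁻¹' C)ᶜ).Preconnected := by
    have := (lift_conn hM hCc).precon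
    rwa [Set.preimage_compl] at this
  have hblock : ∀ {i j l : ℕ}, i < m → j < m → i ≤ l → l ≤ j → π (δ i).1 ∈ C' →
      π (δ j).1 ∈ C' → π (δ l).1 ∈ C' := fun hi hj hil hlj hiP hjP =>
    block h (Set.preimage_mono hC'C) (lift_conn hM hC').precon hPc hY h0' hi hj hil hlj hiP hjP
  -- neighbours of `C'`
  have hnb : ∀ a b, π a ∈ C' → Lat.Adj a b → π b ∈ C' ∨ π b ∈ X ∨ π b ∉ C := by
    intro a b ha hab
    rcases quo_of_lat (π := π) hab with h' | h'
    · left; rw [← h']; exact ha
    · exact hcl _ ha _ h'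
  set I : Finset ℕ := (Finset.range m).filter fun i => π (δ i).1 ∈ C' with hI
  have hmemI : ∀ i, i ∈ I ↔ i < m ∧ π (δ i).1 ∈ C' := by
    intro i; rw [hI, Finset.mem_filter, Finset.mem_range]
  -- analysis of a change dart of `C'`
  have hcases : ∀ d ∈ chs π lab' C',
      (∃ i ∈ I, δ i = d ∧ ((i + 1 ∈ I ∧ cc π lab δ i = 1) ∨ i + 1 ∉ I)) ∨
      (∃ i ∈ I, d = ((δ i).1, (δ i).2 - 1) ∧ (∀ j, j + 1 = i → j ∉ I)) := by
    rintro d ⟨hd1, hd2, hd3, hd4⟩
    have e2 : π (tip d) ∈ X ∨ π (tip d) ∉ C := by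
      rcases hnb d.1 (tip d) hd1 (lat_adj_tip d) with h' | h'
      · exact absurd h' hd2
      · exact h'
    have e3 : π (d.1 + dir (d.2 + 1)) ∈ X ∨ π (d.1 + dir (d.2 + 1)) ∉ C := by
      rcases hnb d.1 _ hd1 (lat_adj_dir _ _) with h' | h'
      · exact absurd h' hd3
      · exact h'
    rcases e2 with e2 | e2
    · rcases e3 with e3 | e3
      · exact absurd (hlabX _ e2 _ e3) hd4
      · -- first in X, second outside
        right
        obtain ⟨i, hi, hdi⟩ := h.all (d.1, d.2 + 1) ⟨hC'C hd1, e3⟩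
        have k : ∀ j : Fin 6, j + 1 - 1 = j := by decide
        refine ⟨i, (hmemI i).2 ⟨hi, by rw [hdi]; exact hd1⟩, ?_, ?_⟩
        · rw [hdi]; exact Prod.ext rfl (k _).symm
        · rintro j rfl hj
          have h1 : prv (π ⁻¹' C) (δ (j + 1)) = δ j := by rw [h.step, prv_nxt (h.cut j)]
          have h2 : (d.1, d.2 + 1).1 + dir ((d.1, d.2 + 1).2 - 1) ∈ π ⁻¹' C := by
            show π (d.1 + dir (d.2 + 1 - 1)) ∈ C
            rw [k]; exact hXC e2
          rw [hdi, prv_of_mem h2] at h1
          have h3 : π (δ j).1 ∈ X := by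
            rw [← h1]
            show π (d.1 + dir (d.2 + 1 - 1)) ∈ X
            rw [k]; exact e2
          exact hXn _ h3 ((hmemI j).1 hj).2
    · left
      obtain ⟨i, hi, hdi⟩ := h.all d ⟨hC'C hd1, e2⟩
      refine ⟨i, (hmemI i).2 ⟨hi, by rw [hdi]; exact hd1⟩, hdi, ?_⟩
      rcases e3 with e3 | e3
      · right
        intro hi1
        have h2 : (δ i).1 + dir ((δ i).2 + 1) ∈ π ⁻¹' C := by rw [hdi]; exact hXC e3
        have h1 : (δ (i + 1)).1 = d.1 + dir (d.2 + 1) := by
          rw [h.step, nxt_of_mem h2, hdi]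
        exact hXn _ (by rw [h1]; exact e3) ((hmemI (i + 1)).1 hi1).2
      · by_cases hi1 : i + 1 ∈ I
        · left
          refine ⟨hi1, (cc_iff h i).2 ?_⟩
          rw [hdi]
          refine ⟨hC'C hd1, e2, e3, ?_⟩
          rw [← hlab _ (show π (d.1 + dir d.2) ∉ C from e2), ← hlab _ e3]
          exact hd4
        · right; exact hi1
  rcases I.eq_empty_or_nonempty with hIe | hIne
  · have : chs π lab' C' = ∅ := by
      rw [Set.eq_empty_iff_forall_notMem]
      intro d hd
      rcases hcases d hd with ⟨i, hi, _⟩ | ⟨i, hi, _⟩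
      · rw [hIe] at hi; simp at hi
      · rw [hIe] at hi; simp at hi
    rw [chg_def, this]; simp
  · obtain ⟨s, hs, hsmin⟩ := I.exists_min_image id hIne
    obtain ⟨e, he, hemax⟩ := I.exists_max_image id hIne
    simp only [id] at hsmin hemax
    have hsI := (hmemI s).1 hs
    have heI := (hmemI e).1 he
    have hse : s ≤ e := hsmin e he
    have hall : ∀ i, s ≤ i → i ≤ e → i ∈ I := fun i h1 h2 =>
      (hmemI i).2 ⟨by omega, hblock hsI.1 heI.1 h1 h2 hsI.2 heI.2⟩
    have hR := hb s e hse heI.1 fun i h1 h2 => ((hmemI i).1 (hall i h1 h2)).2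
    have hsub : chs π lab' C' ⊆ (δ '' {i | s ≤ i ∧ i < e ∧ cc π lab δ i = 1}) ∪
        ({δ e} ∪ {((δ s).1, (δ s).2 - 1)}) := by
      intro d hd
      rcases hcases d hd with ⟨i, hi, hdi, h'⟩ | ⟨i, hi, hdi, h'⟩
      · rcases h' with ⟨hi1, hci⟩ | hi1
        · left
          exact ⟨i, ⟨hsmin i hi, by have := hemax _ hi1; omega, hci⟩, hdi⟩
        · right; left
          have : i = e := by
            by_contra hne
            have := hemax i hi
            exact hi1 (hall _ (by have := hsmin i hi; omega) (by omega))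
          rw [this] at hdi
          exact hdi.symm
      · right; right
        have : i = s := by
          by_contra hne
          have h1 := hsmin i hi
          have h2 := hemax i hi
          exact h' (i - 1) (by omega) (hall _ (by omega) (by omega))
        rw [this] at hdi
        exact hdi
    have hfin1 : ({i | s ≤ i ∧ i < e ∧ cc π lab δ i = 1} : Set ℕ).Finite :=
      (Set.finite_Iio e).subset fun i hi => hi.2.1
    rw [chg_def]
    have hfin2 : ((δ '' {i | s ≤ i ∧ i < e ∧ cc π lab δ i = 1}) ∪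
        ({δ e} ∪ {((δ s).1, (δ s).2 - 1)}) : Set Dart).Finite :=
      (hfin1.image _).union ((Set.finite_singleton _).union (Set.finite_singleton _))
    have c1 := Set.ncard_le_ncard hsub hfin2
    have c2 := Set.ncard_union_le (δ '' {i | s ≤ i ∧ i < e ∧ cc π lab δ i = 1})
      ({δ e} ∪ {((δ s).1, (δ s).2 - 1)})
    have c3 := Set.ncard_union_le ({δ e} : Set Dart) {((δ s).1, (δ s).2 - 1)}
    have c4 := Set.ncard_image_le (f := δ) hfin1
    have c5 := RR_sub (π := π) (lab := lab) (δ := δ) s e hse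
    rw [Set.ncard_singleton, Set.ncard_singleton] at c3
    omega

/-- the case of two cut darts in opposite runs -/
lemma two_bound (hM : Model π o) {C : Set W} (hC : Conn (Quo π) C)
    (hCc : Conn (Quo π) Cᶜ) {lab : W → ι} {m : ℕ} {δ : ℕ → Dart} (h : Enum (π ⁻¹' C) m δ)
    (h4 : chg π lab C = 4) {p q : ℕ} (hp : p < m) (hq : q < m)
    (hpq : ((RR π lab δ q : ℕ) : ZMod 4) = ((RR π lab δ p : ℕ) : ZMod 4) + 2)
    {X C' : Set W} (hXC : X ⊆ C) (hX : Conn (Quo π) X) (hC'C : C' ⊆ C) (hdis : Disjoint C' X)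
    (hC' : Conn (Quo π) C') (hcl : ∀ c ∈ C', ∀ q, (Quo π).Adj c q → q ∈ C' ∨ q ∈ X ∨ q ∉ C)
    {lab' : W → ι} (hlab : ∀ p, p ∉ C → lab' p = lab p)
    (hlabX : ∀ p ∈ X, ∀ q ∈ X, lab' p = lab' q) (hpX : π (δ p).1 ∈ X) (hqX : π (δ q).1 ∈ X) :
    chg π lab' C' ≤ 4 := by
  have hXn : ∀ x ∈ X, x ∉ C' := fun x hx h => Set.disjoint_left.1 hdis h hx
  have hRm : RR π lab δ m = 4 := by rw [← chg_eq_RR h, h4]
  -- the case `p < q`
  have main : ∀ p q : ℕ, p < q → q < m →
      ((RR π lab δ q : ℕ) : ZMod 4) = ((RR π lab δ p : ℕ) : ZMod 4) + 2 →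
      π (δ p).1 ∈ X → π (δ q).1 ∈ X → chg π lab' C' ≤ 4 := by
    intro p q hpq hq hR hpX hqX
    have m1 : RR π lab δ p ≤ RR π lab δ q := RR_mono hpq.le
    have m2 : RR π lab δ q ≤ 4 := by rw [← hRm]; exact RR_mono hq.le
    have hR2 : RR π lab δ q = RR π lab δ p + 2 := by
      generalize RR π lab δ q = a at *
      generalize RR π lab δ p = b at *
      have ha : a < 5 := by omega
      have hb : b < 5 := by omega
      interval_cases a <;> interval_cases b <;> first | rfl | (exfalso; revert hR; decide) | omega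
    have hs := h.shift p
    have hR' : ∀ n, RR π lab δ (p + n) = RR π lab δ p + RR π lab (fun i => δ (p + i)) n :=
      fun n => RR_shift p n
    have hR'm : RR π lab (fun i => δ (p + i)) m = 4 := by rw [← chg_eq_RR hs, h4]
    have hR'q : RR π lab (fun i => δ (p + i)) (q - p) = 2 := by
      have := hR' (q - p)
      rw [show p + (q - p) = q by omega] at this
      omega
    refine comp_bound hM hC hCc hs hXC hX hC'C hdis hC' hcl hlab hlabX hpX ?_
    intro s e hse hem hin
    by_cases hqe : e < q - p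
    · have := RR_mono (π := π) (lab := lab) (δ := fun i => δ (p + i)) hqe.le
      omega
    · have hqs : q - p < s := by
        by_contra hns
        have : π (δ (p + (q - p))).1 ∈ C' := hin (q - p) (by omega) (by omega)
        rw [show p + (q - p) = q by omega] at this
        exact hXn _ hqX this
      have k1 := RR_mono (π := π) (lab := lab) (δ := fun i => δ (p + i)) hqs.le
      have k2 := RR_mono (π := π) (lab := lab) (δ := fun i => δ (p + i)) hem.le
      omega
  rcases lt_trichotomy p q with hlt | heq | hgt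
  · exact main p q hlt hq hpq hpX hqX
  · rw [heq] at hpq
    exfalso
    generalize ((RR π lab δ q : ℕ) : ZMod 4) = a at hpq
    revert a; decide
  · refine main q p hgt hp ?_ hqX hpX
    rw [hpq]
    generalize ((RR π lab δ p : ℕ) : ZMod 4) = a
    revert a; decide

variable [Finite W]

/-- **Planar step lemma** -/
theorem step_planar' (hM : Model π o) {C : Set W} (ho : o ∉ C) (hC : Conn (Quo π) C)
    (hCc : Conn (Quo π) Cᶜ) {lab : W → ι} (hgood : chg π lab C ≤ 4)
    {y : W → W} (hy : ∀ x ∈ C, y x ∈ C ∧ ∃ z, z ∉ C ∧ (Quo π).Adj (y x) z) :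
    ∃ x ∈ C, ∃ x' ∈ C, ((x = x' ∧ ∃ z, z ∉ C ∧ (Quo π).Adj x z) ∨ (Quo π).Adj x x') ∧
      ∀ X ⊆ C, Conn (Quo π) X → y x ∈ X → y x' ∈ X → (x = x' → x ∈ X) →
      ∀ C' ⊆ C, Disjoint C' X → Conn (Quo π) C' →
        (∀ c ∈ C', ∀ q, (Quo π).Adj c q → q ∈ C' ∨ q ∈ X ∨ q ∉ C) →
      ∀ lab' : W → ι, (∀ p, p ∉ C → lab' p = lab p) → (∀ p ∈ X, ∀ q ∈ X, lab' p = lab' q) →
        chg π lab' C' ≤ 4 := by
  classical
  have hfin : (π ⁻¹' C).Finite := lift_finite hM ho
  have hc1 := (lift_conn hM hC).precon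
  have hc2 : (Lat.induce (π ⁻¹' C)ᶜ).Preconnected := by
    have := (lift_conn hM hCc).precon
    rwa [Set.preimage_compl] at this
  rcases Nat.lt_or_ge (chg π lab C) 4 with hlt | hge
  · -- at most three changes
    obtain ⟨d0, hd0, hd0'⟩ : ∃ d0, IsCut (π ⁻¹' C) d0 ∧ (chg π lab C = 0 ∨ d0 ∈ chs π lab C) := by
      by_cases h0 : chg π lab C = 0
      · obtain ⟨x, hx⟩ := hC.1
        obtain ⟨hy1, z, hz, hyz⟩ := hy x hx
        obtain ⟨d, hd, -, -⟩ := exists_cut hy1 hz hyz
        exact ⟨d, hd, Or.inl h0⟩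
      · rw [chg_def] at h0
        obtain ⟨d, hd⟩ := Set.nonempty_of_ncard_ne_zero h0
        exact ⟨d, ⟨hd.1, hd.2.1⟩, Or.inr hd⟩
    refine ⟨π d0.1, hd0.1, π d0.1, hd0.1, Or.inl ⟨rfl, π (tip d0), hd0.2, cut_adj hd0⟩, ?_⟩
    intro X hXC hX _ _ hxX C' hC'C hdis hC' hcl lab' hlab hlabX
    obtain ⟨m, δ, hE, hδ0⟩ := Enum.exists hfin hc1 hc2 d0 hd0
    have hXn : ∀ x ∈ X, x ∉ C' := fun x hx h => Set.disjoint_left.1 hdis h hx
    refine comp_bound hM hC hCc hE hXC hX hC'C hdis hC' hcl hlab hlabX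
      (by rw [hδ0]; exact hxX rfl) ?_
    intro s e hse hem hin
    have k2 : RR π lab δ e ≤ RR π lab δ m := RR_mono hem.le
    rw [← chg_eq_RR hE] at k2
    rcases hd0' with h0 | h0
    · omega
    · have hs : 1 ≤ s := by
        by_contra hs
        have hs0 : s = 0 := by omega
        have := hin 0 (by omega) (by omega)
        rw [hδ0] at this
        exact hXn _ (hxX rfl) this
      have k1 : RR π lab δ 1 ≤ RR π lab δ s := RR_mono hs
      have k3 : RR π lab δ 1 = 1 := by
        rw [show (1 : ℕ) = 0 + 1 from rfl, RR_succ, RR_zero, (cc_iff hE 0).2 (by rw [hδ0]; exact h0)]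
      omega
  · -- exactly four changes
    have h4 : chg π lab C = 4 := le_antisymm hgood hge
    obtain ⟨x0, hx0⟩ := hC.1
    obtain ⟨hy1, z, hz, hyz⟩ := hy x0 hx0
    obtain ⟨dd, hdd, -, -⟩ := exists_cut hy1 hz hyz
    obtain ⟨m, δ, hE, -⟩ := Enum.exists hfin hc1 hc2 dd hdd
    have hRm : RR π lab δ m = 4 := by rw [← chg_eq_RR hE, h4]
    -- positions of cut darts
    have hpos : ∃ pos : Dart → ℕ, ∀ d, IsCut (π ⁻¹' C) d → pos d < m ∧ δ (pos d) = d := by
      refine ⟨fun d => if h : IsCut (π ⁻¹' C) d then (hE.all d h).choose else 0, ?_⟩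
      intro d hd
      simp only [hd, dif_pos]
      exact (hE.all d hd).choose_spec
    obtain ⟨pos, hpos⟩ := hpos
    set ρ : Dart → ZMod 4 := fun d => ((RR π lab δ (pos d) : ℕ) : ZMod 4) with hρ
    have hρδ : ∀ i, i < m → ρ (δ i) = ((RR π lab δ i : ℕ) : ZMod 4) := by
      intro i hi
      have h1 := hpos (δ i) (hE.cut i)
      have h2 : pos (δ i) = i := hE.inj _ _ h1.1 hi h1.2
      simp only [hρ, h2]
    -- feet
    have hfoot : ∃ foot : W → Dart, ∀ x ∈ C, IsCut (π ⁻¹' C) (foot x) ∧ π (foot x).1 = y x := by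
      have : ∀ x, ∃ d, x ∈ C → IsCut (π ⁻¹' C) d ∧ π d.1 = y x := by
        intro x
        by_cases hx : x ∈ C
        · obtain ⟨hy1, z, hz, hyz⟩ := hy x hx
          obtain ⟨d, hd, hd1, -⟩ := exists_cut hy1 hz hyz
          exact ⟨d, fun _ => ⟨hd, hd1⟩⟩
        · exact ⟨dd, fun h => absurd h hx⟩
      choose f hf using this
      exact ⟨f, hf⟩
    obtain ⟨foot, hfoot⟩ := hfoot
    -- next position
    have hnext : ∀ i, i < m → ρ (nxt (π ⁻¹' C) (δ i)) = ρ (δ i) + ((cc π lab δ i : ℕ) : ZMod 4) := by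
      intro i hi
      rw [← hE.step]
      by_cases h1 : i + 1 < m
      · rw [hρδ _ h1, hρδ _ hi, RR_succ, Nat.cast_add]
      · have h2 : i + 1 = m := by omega
        rw [h2, hE.per, hρδ 0 hE.pos, hρδ i hi, RR_zero, ← Nat.cast_add, ← RR_succ, h2, hRm]
        decide
    by_cases hex1 : ∃ x ∈ C, ∃ x' ∈ C, (Quo π).Adj x x' ∧ ρ (foot x') = ρ (foot x) + 2
    · obtain ⟨x, hx, x', hx', hadj, hopp⟩ := hex1
      refine ⟨x, hx, x', hx', Or.inr hadj, ?_⟩
      intro X hXC hX hyx hyx' _ C' hC'C hdis hC' hcl lab' hlab hlabX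
      have f1 := hfoot x hx
      have f2 := hfoot x' hx'
      have p1 := hpos _ f1.1
      have p2 := hpos _ f2.1
      exact two_bound hM hC hCc hE h4 p1.1 p2.1 hopp hXC hX hC'C hdis hC' hcl hlab hlabX
        (by rw [p1.2, f1.2]; exact hyx) (by rw [p2.2, f2.2]; exact hyx')
    · by_cases hex2 : ∃ d, IsCut (π ⁻¹' C) d ∧ ρ d = ρ (foot (π d.1)) + 2
      · obtain ⟨d, hd, hopp⟩ := hex2
        have hx : π d.1 ∈ C := hd.1
        refine ⟨π d.1, hx, π d.1, hx, Or.inl ⟨rfl, π (tip d), hd.2, cut_adj hd⟩, ?_⟩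
        intro X hXC hX hyx _ hxX C' hC'C hdis hC' hcl lab' hlab hlabX
        have f1 := hfoot _ hx
        have p1 := hpos _ f1.1
        have p2 := hpos _ hd
        exact two_bound hM hC hCc hE h4 p1.1 p2.1 hopp hXC hX hC'C hdis hC' hcl hlab hlabX
          (by rw [p1.2, f1.2]; exact hyx) (by rw [p2.2]; exact hxX rfl)
      · exfalso
        push Not at hex1 hex2
        refine hex (π ⁻¹' C) (fun a => ρ (foot (π a))) ρ ?_ ?_ ?_ ?_ hfin ?_
        · intro d hd1 hd2
          rcases quo_of_lat (π := π) (lat_adj_tip d) with h' | h'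
          · rw [← h']
            generalize ρ (foot (π d.1)) = a
            revert a; decide
          · exact hex1 _ hd1 _ hd2 h'
        · intro d hd
          exact hex2 d hd
        · intro d hd hdin
          obtain ⟨i, hi, rfl⟩ := hE.all d hd
          rw [hnext i hi]
          have : cc π lab δ i = 0 := cc_zero_of_not hE fun h' => h'.2.2.1 hdin
          rw [this]; simp
        · intro d hd _
          obtain ⟨i, hi, rfl⟩ := hE.all d hd
          rw [hnext i hi]
          have := cc_le (π := π) (lab := lab) (δ := δ) i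
          rcases (by omega : cc π lab δ i = 0 ∨ cc π lab δ i = 1) with h' | h'
          · left; rw [h']; simp
          · right; rw [h']; simp
        · -- the unique change from 0 to 1
          have hex3 : ∃ n, 0 < RR π lab δ n := ⟨m, by omega⟩
          obtain ⟨n, hn, hnmin⟩ : ∃ n, 0 < RR π lab δ n ∧ ∀ k < n, RR π lab δ k = 0 :=
            ⟨Nat.find hex3, Nat.find_spec hex3, fun k hk => by
              have := Nat.find_min hex3 hk; omega⟩
          have hn0 : n ≠ 0 := by rintro rfl; rw [RR_zero] at hn; omega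
          obtain ⟨i, rfl⟩ := Nat.exists_eq_succ_of_ne_zero hn0
          have hRi : RR π lab δ i = 0 := hnmin i (Nat.lt_succ_self i)
          have him : i < m := by
            by_contra hge
            have : RR π lab δ m ≤ RR π lab δ i := RR_mono (by omega)
            omega
          rw [Nat.succ_eq_add_one, RR_succ, hRi] at hn
          have hci : cc π lab δ i = 1 := by
            have := cc_le (π := π) (lab := lab) (δ := δ) i
            omega
          refine ⟨δ i, ⟨hE.cut i, ((cc_iff hE i).1 hci).2.2.1, ?_, ?_⟩, ?_⟩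
          · rw [hρδ i him, hRi]; simp
          · rw [hnext i him, hρδ i him, hRi, hci]; simp
          · rintro d ⟨hd, _, hd0, hd1⟩
            obtain ⟨j, hj, rfl⟩ := hE.all d hd
            rw [hnext j hj, hd0, zero_add] at hd1
            rw [hρδ j hj] at hd0
            have hcj : cc π lab δ j = 1 := by
              have := cc_le (π := π) (lab := lab) (δ := δ) j
              rcases (by omega : cc π lab δ j = 0 ∨ cc π lab δ j = 1) with h' | h'
              · rw [h'] at hd1; exact absurd hd1 (by decide)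
              · exact h'
            have hRj1 : RR π lab δ (j + 1) ≤ 4 := by rw [← hRm]; exact RR_mono (by omega)
            rw [RR_succ, hcj] at hRj1
            have hRj : RR π lab δ j = 0 := by
              generalize RR π lab δ j = a at hd0 hRj1
              have : a < 4 := by omega
              interval_cases a
              · rfl
              all_goals exact absurd hd0 (by decide)
            have hij : i = j := by
              rcases lt_trichotomy i j with hlt | heq | hgt
              · have k1 : RR π lab δ (i + 1) ≤ RR π lab δ j := RR_mono hlt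
                rw [RR_succ] at k1; omega
              · exact heq
              · have k1 : RR π lab δ (j + 1) ≤ RR π lab δ i := RR_mono hgt
                rw [RR_succ] at k1; omega
            rw [hij]

/-- at most four labels are visible -/
theorem visible_le' (hM : Model π o) {C : Set W} (ho : o ∉ C) (hC : Conn (Quo π) C)
    (hCc : Conn (Quo π) Cᶜ) {lab : W → ι} (hgood : chg π lab C ≤ 4) :
    Set.ncard {l | ∃ x ∈ C, ∃ z, z ∉ C ∧ (Quo π).Adj x z ∧ lab z = l} ≤ 4 := by
  classical
  have hfin : (π ⁻¹' C).Finite := lift_finite hM ho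
  have hc1 := (lift_conn hM hC).precon
  have hc2 : (Lat.induce (π ⁻¹' C)ᶜ).Preconnected := by
    have := (lift_conn hM hCc).precon
    rwa [Set.preimage_compl] at this
  by_cases hcut : ∃ d, IsCut (π ⁻¹' C) d
  · obtain ⟨d, hd⟩ := hcut
    obtain ⟨m, δ, hE, -⟩ := Enum.exists hfin hc1 hc2 d hd
    have hR : RR π lab δ m ≤ 4 := by rw [← chg_eq_RR hE]; exact hgood
    set L : ℕ → ι := fun i => lab (π (tip (δ i))) with hL
    -- the labels are the labels after changes, or the label at 0
    have hset : {l | ∃ x ∈ C, ∃ z, z ∉ C ∧ (Quo π).Adj x z ∧ lab z = l} ⊆ L '' Set.Iio m := by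
      rintro l ⟨x, hx, z, hz, hxz, rfl⟩
      obtain ⟨d, hd, hd1, hd2⟩ := exists_cut hx hz hxz
      obtain ⟨i, hi, rfl⟩ := hE.all d hd
      exact ⟨i, hi, by rw [hL]; simp only [hd2]⟩
    by_cases hR0 : RR π lab δ m = 0
    · have hconst : ∀ i, i ≤ m → L i = L 0 := by
        intro i
        induction i with
        | zero => intro _; rfl
        | succ i ih =>
          intro hi
          have h1 : cc π lab δ i = 0 := by
            have k1 : RR π lab δ (i + 1) ≤ RR π lab δ m := RR_mono hi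
            rw [RR_succ] at k1; omega
          rw [← ih (by omega)]
          by_contra hne
          unfold cc at h1
          rw [if_pos (fun e => hne e.symm)] at h1
          omega
      have : {l | ∃ x ∈ C, ∃ z, z ∉ C ∧ (Quo π).Adj x z ∧ lab z = l} ⊆ {L 0} := by
        intro l hl
        obtain ⟨i, hi, rfl⟩ := hset hl
        exact hconst i (le_of_lt hi)
      have c1 := Set.ncard_le_ncard this (Set.finite_singleton _)
      rw [Set.ncard_singleton] at c1
      omega
    · -- every label is the label at a position just after a change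
      have hset2 : L '' Set.Iio m ⊆ (fun i => L (i + 1)) '' {i | i < m ∧ cc π lab δ i = 1} := by
        -- every position is preceded cyclically by a change
        have key : ∀ i, RR π lab δ i = 0 → L i = L 0 := by
          intro i
          induction i with
          | zero => intro _; rfl
          | succ i ih =>
            intro hi
            rw [RR_succ] at hi
            rw [← ih (by omega)]
            by_contra hne
            have h1 : cc π lab δ i = 0 := by omega
            unfold cc at h1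
            rw [if_pos (fun e => hne e.symm)] at h1
            omega
        have key2 : ∀ i, 0 < RR π lab δ i → ∃ j < i, cc π lab δ j = 1 ∧ L i = L (j + 1) := by
          intro i
          induction i with
          | zero => intro h; rw [RR_zero] at h; omega
          | succ i ih =>
            intro h
            by_cases hc : cc π lab δ i = 1
            · exact ⟨i, Nat.lt_succ_self i, hc, rfl⟩
            · have h1 : cc π lab δ i = 0 := by
                have := cc_le (π := π) (lab := lab) (δ := δ) i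
                omega
              rw [RR_succ, h1, add_zero] at h
              obtain ⟨j, hj, hcj, hLj⟩ := ih h
              refine ⟨j, by omega, hcj, ?_⟩
              rw [← hLj]
              by_contra hne
              unfold cc at h1
              rw [if_pos (fun e => hne e.symm)] at h1
              omega
        rintro l ⟨i, hi, rfl⟩
        by_cases h0 : RR π lab δ i = 0
        · have h1 : L i = L 0 := key i h0
          obtain ⟨j, hj, hcj, hLj⟩ := key2 m (by omega)
          refine ⟨j, ⟨hj, hcj⟩, ?_⟩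
          simp only
          rw [← hLj, h1, hL]
          simp only [hE.per]
        · obtain ⟨j, hj, hcj, hLj⟩ := key2 i (by omega)
          exact ⟨j, ⟨by have : i < m := hi; omega, hcj⟩, hLj.symm⟩
      have hf : ({i | i < m ∧ cc π lab δ i = 1} : Set ℕ).Finite :=
        (Set.finite_Iio m).subset fun i hi => hi.1
      have c1 := Set.ncard_le_ncard (hset.trans hset2) (hf.image _)
      have c2 := Set.ncard_image_le (f := fun i => L (i + 1)) hf
      have c3 := sum_cc (π := π) (lab := lab) (δ := δ) 0 m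
      simp only [Nat.zero_le, true_and] at c3
      have c4 : ∑ i ∈ Finset.Ico 0 m, cc π lab δ i = RR π lab δ m := by
        rw [RR, Finset.range_eq_Ico]
      omega
  · have : {l | ∃ x ∈ C, ∃ z, z ∉ C ∧ (Quo π).Adj x z ∧ lab z = l} = ∅ := by
      rw [Set.eq_empty_iff_forall_notMem]
      rintro l ⟨x, hx, z, hz, hxz, rfl⟩
      obtain ⟨d, hd, -, -⟩ := exists_cut hx hz hxz
      exact hcut ⟨d, hd⟩
    rw [this]; simp

end

end PS
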