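import Pool.Agent.Lib_helper70.PS.Deep

set_option autoImplicit false

/-!
From the certificate to the product structure (module M6).
-/

namespace PS

namespace M6

section tree
variable {ι : Type}

/-- the tree of a parent function -/
def tr (par : ι → Option ι) : SimpleGraph (Option ι) :=
  SimpleGraph.fromRel (fun x y => ∃ i, x = some i ∧ y = par i)

variable {par : ι → Option ι} {rk : Option ι → ℕ} (hrk : ∀ i, rk (par i) < rk (some i))

include hrk in
lemma tr_adj_par (i : ι) : (tr par).Adj (some i) (par i) := by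
  refine ⟨fun h => ?_, Or.inl ⟨i, rfl, rfl⟩⟩
  have := hrk i
  rw [← h] at this
  exact lt_irrefl _ this

include hrk in
lemma tr_connected : (tr par).Connected := by
  have key : ∀ n, ∀ x, rk x = n → (tr par).Reachable x none := by
    intro n
    induction n using Nat.strong_induction_on with
    | _ n ih =>
      intro x hx
      cases x with
      | none => exact SimpleGraph.Reachable.refl _
      | some i =>
        exact (tr_adj_par hrk i).reachable.trans (ih (rk (par i)) (hx ▸ hrk i) (par i) rfl)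
  exact { preconnected := fun x y => (key _ x rfl).trans (key _ y rfl).symm, nonempty := ⟨none⟩ }

include hrk in
lemma tr_edgeSet : (tr par).edgeSet = Set.range (fun i => s(some i, par i)) := by
  ext e
  induction e using Sym2.ind with
  | _ x y =>
    rw [SimpleGraph.mem_edgeSet, Set.mem_range]
    constructor
    · rintro ⟨-, ⟨i, rfl, rfl⟩ | ⟨i, rfl, rfl⟩⟩
      · exact ⟨i, rfl⟩
      · exact ⟨i, Sym2.eq_swap⟩
    · rintro ⟨i, hi⟩
      rw [← SimpleGraph.mem_edgeSet, ← hi, SimpleGraph.mem_edgeSet]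
      exact tr_adj_par hrk i

include hrk in
lemma tr_inj : Function.Injective (fun i => s(some i, par i)) := by
  intro i j hij
  simp only [Sym2.eq_iff] at hij
  rcases hij with ⟨h, -⟩ | ⟨h1, h2⟩
  · exact Option.some.inj h
  · have a1 := hrk i
    have a2 := hrk j
    rw [← h1] at a2
    rw [h2] at a1
    omega

include hrk in
lemma tr_isTree [Finite ι] : (tr par).IsTree := by
  rw [SimpleGraph.isTree_iff_connected_and_card]
  refine ⟨tr_connected hrk, ?_⟩
  rw [tr_edgeSet hrk, Nat.card_range_of_injective (tr_inj hrk), Finite.card_option]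

end tree

/-- tree decompositions indexed by any finite type -/
lemma hasTW_of {V J : Type} [Finite J] {G : SimpleGraph V} {k : ℕ} (T : SimpleGraph J)
    (hT : T.IsTree) (B : J → Finset V) (he : ∀ u v, G.Adj u v → ∃ t, u ∈ B t ∧ v ∈ B t)
    (hc : ∀ v, (T.induce {t | v ∈ B t}).Connected) (hcard : ∀ t, (B t).card ≤ k + 1) :
    HasTW G k := by
  classical
  obtain ⟨n, ⟨e⟩⟩ := Finite.exists_equiv_fin J
  refine ⟨n, T.comap e.symm, fun t => B (e.symm t), ?_, ?_, ?_, fun t => hcard _⟩
  · exact (SimpleGraph.Iso.comap e.symm T).isTree_iff.2 hT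
  · intro u v huv
    obtain ⟨t, h1, h2⟩ := he u v huv
    exact ⟨e t, by simpa using h1, by simpa using h2⟩
  · intro v
    have hv := conn_iff.1 (hc v)
    rw [conn_iff]
    refine ⟨?_, ?_⟩
    · obtain ⟨t, ht⟩ := hv.1
      exact ⟨e t, by simpa using ht⟩
    · rintro R ⟨a, ha, haR⟩ hR
      have := hv.2 {t | e t ∈ R} ⟨e.symm a, ha, by simpa using haR⟩ (by
        intro x hx hxR y hy hxy
        exact hR (e x) (by simpa using hx) hxR (e y) (by simpa using hy) (by simpa using hxy))
      intro t ht
      have h := this (show e.symm t ∈ {t | v ∈ B t} from ht)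
      simpa using h

lemma exists_slot {V : Type} [Finite V] {m : ℕ} (hm : 0 < m) {S : Set V} (h : S.ncard ≤ m) :
    ∃ f : V → Fin m, Set.InjOn f S := by
  classical
  have hS : S.Finite := Set.toFinite S
  have := hS.fintype
  have hcard : Fintype.card S ≤ Fintype.card (Fin m) := by
    rw [Fintype.card_fin, ← Nat.card_eq_fintype_card, Nat.card_coe_set_eq]
    exact h
  obtain ⟨g⟩ := Function.Embedding.nonempty_of_card_le hcard
  refine ⟨fun v => if hv : v ∈ S then g ⟨v, hv⟩ else ⟨0, hm⟩, ?_⟩
  intro x hx y hy hxy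
  simp only [hx, hy, dif_pos] at hxy
  have := g.injective hxy
  exact congrArg Subtype.val this

lemma node_conn {ι : Type} {A : ι → Finset ι} {par : ι → ι} {rk : ι → ℕ} [DecidableEq ι]
    (hpar : ∀ i, A i = ∅ ∨ (rk (par i) < rk i ∧ ∀ x ∈ A i, x = par i ∨ x ∈ A (par i)))
    {par' : ι → Option ι} (hp' : ∀ i, par' i = if A i = ∅ then none else some (par i))
    {rk' : Option ι → ℕ} (hrk : ∀ i, rk' (par' i) < rk' (some i)) (x : ι) :
    Conn (tr par') {t | ∃ i, t = some i ∧ (x = i ∨ x ∈ A i)} := by
  refine conn_of_hits (conn_singleton _ (some x)) ?_ ?_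
  · rintro _ rfl
    exact ⟨x, rfl, Or.inl rfl⟩
  · rintro T hT ⟨t, ht⟩ hcl
    have key : ∀ n, ∀ t ∈ T, rk' t = n → some x ∈ T := by
      intro n
      induction n using Nat.strong_induction_on with
      | _ n ih =>
        intro t ht hn
        obtain ⟨i, rfl, rfl | hi⟩ := hT ht
        · exact ht
        · have hne : A i ≠ ∅ := Finset.ne_empty_of_mem hi
          have h1 : par' i = some (par i) := by rw [hp', if_neg hne]
          obtain ⟨h2, h3⟩ := (hpar i).resolve_left hne
          have h4 := tr_adj_par hrk i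
          rw [h1] at h4
          have h5 := hrk i
          rw [h1] at h5
          exact ih (rk' (some (par i))) (hn ▸ h5) (some (par i))
            (hcl _ ht _ ⟨par i, rfl, h3 x hi⟩ h4) rfl
    exact ⟨some x, key _ t ht rfl, rfl⟩

end M6

open M6 in
theorem final_of_cert {V : Type} [Fintype V] (G : SimpleGraph V) (b m d : ℕ) (hb : 0 < b)
    (hm : 0 < m) (h : Cert G b m d) :
    ∃ (a : ℕ) (H : SimpleGraph (Fin a)), HasTW H ((d + 1) * m - 1) ∧
      (∃ φ : G →g SP H b, Function.Injective φ) ∧ HasTW (SP H b) ((d + 1) * m * b - 1) := by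
  classical
  obtain ⟨ι, _, lab, μ, A, par, rk, hμ, hlip, hcnt, hA, hedge, hpar⟩ := h
  have hslot := fun i n => exists_slot hm (hcnt i n)
  choose s hs using hslot
  obtain ⟨a, ⟨e⟩⟩ := Finite.exists_equiv_fin (ι × Fin m)
  let H0 : SimpleGraph (ι × Fin m) := SimpleGraph.fromRel (fun p q => p.1 = q.1 ∨ p.1 ∈ A q.1)
  let H : SimpleGraph (Fin a) := H0.comap e.symm
  let par' : ι → Option ι := fun i => if A i = ∅ then none else some (par i)
  let rk' : Option ι → ℕ := fun t => t.elim 0 (fun i => rk i + 1)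
  have hrk : ∀ i, rk' (par' i) < rk' (some i) := by
    intro i
    by_cases hi : A i = ∅
    · simp only [par', if_pos hi, rk', Option.elim]
      omega
    · obtain ⟨h2, -⟩ := (hpar i).resolve_left hi
      simp only [par', if_neg hi, rk', Option.elim]
      omega
  let B : Option ι → Finset (Fin a) := fun t =>
    t.elim ∅ (fun i => ((insert i (A i)) ×ˢ (Finset.univ : Finset (Fin m))).map e.toEmbedding)
  have hmem : ∀ (u : Fin a) (i : ι), u ∈ B (some i) ↔ ((e.symm u).1 = i ∨ (e.symm u).1 ∈ A i) := by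
    intro u i
    simp only [B, Option.elim, Finset.mem_map_equiv, Finset.mem_product, Finset.mem_univ, and_true,
      Finset.mem_insert]
  have hmem0 : ∀ u : Fin a, u ∉ B none := by
    intro u
    simp [B]
  have hnode : ∀ u : Fin a, {t | u ∈ B t} = {t | ∃ i, t = some i ∧ ((e.symm u).1 = i ∨ (e.symm u).1 ∈ A i)} := by
    intro u
    ext t
    cases t with
    | none =>
      simp only [Set.mem_ofPred_eq]
      constructor
      · intro h; exact absurd h (hmem0 u)
      · rintro ⟨i, hi, -⟩; exact absurd hi (by simp)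
    | some i =>
      simp only [Set.mem_ofPred_eq]
      constructor
      · intro h; exact ⟨i, rfl, (hmem u i).1 h⟩
      · rintro ⟨j, hj, h⟩
        cases hj
        exact (hmem u i).2 h
  have hbag : ∀ u v : Fin a, (u = v ∨ H.Adj u v) → ∃ t, u ∈ B t ∧ v ∈ B t := by
    rintro u v (rfl | h)
    · exact ⟨some (e.symm u).1, (hmem u _).2 (Or.inl rfl), (hmem u _).2 (Or.inl rfl)⟩
    · have h' : (e.symm u) ≠ (e.symm v) ∧ (((e.symm u).1 = (e.symm v).1 ∨ (e.symm u).1 ∈ A (e.symm v).1) ∨
          ((e.symm v).1 = (e.symm u).1 ∨ (e.symm v).1 ∈ A (e.symm u).1)) := h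
      rcases h'.2 with (h1 | h1) | (h1 | h1)
      · exact ⟨some (e.symm u).1, (hmem u _).2 (Or.inl rfl), (hmem v _).2 (Or.inl h1.symm)⟩
      · exact ⟨some (e.symm v).1, (hmem u _).2 (Or.inr h1), (hmem v _).2 (Or.inl rfl)⟩
      · exact ⟨some (e.symm u).1, (hmem u _).2 (Or.inl rfl), (hmem v _).2 (Or.inl h1)⟩
      · exact ⟨some (e.symm u).1, (hmem u _).2 (Or.inl rfl), (hmem v _).2 (Or.inr h1)⟩
  have hcardB : ∀ t, (B t).card ≤ (d + 1) * m := by
    intro t
    cases t with
    | none => simp [B]
    | some i =>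
      simp only [B, Option.elim, Finset.card_map, Finset.card_product, Finset.card_univ,
        Fintype.card_fin]
      have h1 := Finset.card_insert_le i (A i)
      have h2 := hA i
      exact Nat.mul_le_mul_right m (by omega)
  have hpos : 0 < (d + 1) * m := by positivity
  have hposb : 0 < (d + 1) * m * b := by positivity
  refine ⟨a, H, ?_, ?_, ?_⟩
  · refine hasTW_of (tr par') (tr_isTree hrk) B (fun u v huv => hbag u v (Or.inr huv)) ?_ ?_
    · intro v
      rw [hnode v, conn_iff]
      exact node_conn hpar (fun i => rfl) hrk _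
    · intro t
      have := hcardB t
      omega
  · have hinj : Function.Injective
        (fun v => ((e (lab v, s (lab v) (μ v) v), (⟨μ v, hμ v⟩ : Fin b)) : Fin a × Fin b)) := by
      intro u v huv
      simp only [Prod.mk.injEq, Fin.mk.injEq, EmbeddingLike.apply_eq_iff_eq] at huv
      obtain ⟨⟨h1, h2⟩, h3⟩ := huv
      rw [← h1, ← h3] at h2
      exact hs (lab u) (μ u) ⟨rfl, rfl⟩ ⟨h1.symm, h3.symm⟩ h2
    refine ⟨⟨fun v => (e (lab v, s (lab v) (μ v) v), ⟨μ v, hμ v⟩), ?_⟩, hinj⟩
    intro u v huv
    refine ⟨fun h => huv.ne (hinj h), Or.inl ⟨?_, ?_⟩⟩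
    · show e _ = e _ ∨ H0.Adj (e.symm (e _)) (e.symm (e _))
      rw [e.symm_apply_apply, e.symm_apply_apply]
      by_cases heq : (lab u, s (lab u) (μ u) u) = (lab v, s (lab v) (μ v) v)
      · exact Or.inl (congrArg e heq)
      · right
        refine ⟨heq, ?_⟩
        rcases hedge u v huv with h | h | h
        · exact Or.inl (Or.inl h)
        · exact Or.inl (Or.inr h)
        · exact Or.inr (Or.inr h)
    · show (⟨μ u, hμ u⟩ : Fin b) = ⟨μ v, hμ v⟩ ∨ (SimpleGraph.pathGraph b).Adj ⟨μ u, hμ u⟩ ⟨μ v, hμ v⟩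
      rw [SimpleGraph.pathGraph_adj, Fin.mk.injEq]
      have h1 := hlip u v huv
      have h2 := hlip v u huv.symm
      show μ u = μ v ∨ μ u + 1 = μ v ∨ μ v + 1 = μ u
      omega
  · refine hasTW_of (tr par') (tr_isTree hrk) (fun t => B t ×ˢ (Finset.univ : Finset (Fin b))) ?_ ?_ ?_
    · rintro ⟨u, i⟩ ⟨v, j⟩ ⟨-, h⟩
      have : u = v ∨ H.Adj u v := by
        rcases h with ⟨h, -⟩ | ⟨h, -⟩
        · exact h
        · rcases h with h | h
          · exact Or.inl h.symm
          · exact Or.inr h.symm
      obtain ⟨t, h1, h2⟩ := hbag u v this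
      exact ⟨t, by simpa using h1, by simpa using h2⟩
    · rintro ⟨v, j⟩
      have : {t | (v, j) ∈ B t ×ˢ (Finset.univ : Finset (Fin b))} = {t | v ∈ B t} := by
        ext t; simp
      rw [this, hnode v, conn_iff]
      exact node_conn hpar (fun i => rfl) hrk _
    · intro t
      have := hcardB t
      rw [Finset.card_product, Finset.card_univ, Fintype.card_fin]
      have h2 := Nat.mul_le_mul_right b this
      omega

end PS
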